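import Mathlib

set_option autoImplicit false

open Finset

namespace H380NV

variable {V α : Type} [Fintype V] [DecidableEq V] [Fintype α] [DecidableEq α]

/-- State of the backward histories: position (or colour) and number of jumps. -/
abbrev St (V α : Type) := (V → V ⊕ α) × (V → ℕ)

def step (s : St V α) (v : V) (z : V ⊕ α) : St V α :=
  (fun u => if s.1 u = Sum.inl v then z else s.1 u,
   fun u => if s.1 u = Sum.inl v ∧ z ≠ Sum.inl v then s.2 u + 1 else s.2 u)

def Tp (p : V → V ⊕ α → ℝ) (v : V) (f : St V α → ℝ) (s : St V α) : ℝ :=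
  ∑ z, p v z * f (step s v z)

def Ex (p : V → V ⊕ α → ℝ) : List V → (St V α → ℝ) → ℝ
  | [], f => f (Sum.inl, fun _ => 0)
  | v :: L, f => Ex p L (Tp p v f)

lemma Ex_mono {p : V → V ⊕ α → ℝ} (hp : ∀ v z, 0 ≤ p v z) (L : List V) :
    ∀ {f g : St V α → ℝ}, (∀ s, f s ≤ g s) → Ex p L f ≤ Ex p L g := by
  induction L with
  | nil => intro f g h; exact h _
  | cons v L ih =>
    intro f g h
    exact ih fun s => sum_le_sum fun z _ => mul_le_mul_of_nonneg_left (h _) (hp v z)

lemma Ex_add (p : V → V ⊕ α → ℝ) (L : List V) :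
    ∀ (f g : St V α → ℝ), Ex p L (fun s => f s + g s) = Ex p L f + Ex p L g := by
  induction L with
  | nil => intro f g; rfl
  | cons v L ih =>
    intro f g
    simp only [Ex]
    rw [← ih]
    congr 1
    funext s
    simp only [Tp, mul_add, sum_add_distrib]

lemma Ex_sum (p : V → V ⊕ α → ℝ) (L : List V) {ι : Type} [Fintype ι] (c : ι → ℝ) :
    ∀ (f : ι → St V α → ℝ), Ex p L (fun s => ∑ i, c i * f i s) = ∑ i, c i * Ex p L (f i) := by
  induction L with
  | nil => intro f; rfl
  | cons v L ih =>
    intro f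
    simp only [Ex]
    rw [← ih]
    congr 1
    funext s
    simp only [Tp, mul_sum]
    rw [sum_comm]
    refine sum_congr rfl fun i _ => sum_congr rfl fun z _ => by ring

omit [Fintype V] [Fintype α] in
lemma step_self (s : St V α) (v : V) : step s v (Sum.inl v) = s := by
  ext u
  · simp only [step]
    split_ifs with h
    · exact h.symm
    · rfl
  · simp [step]

/-- Weighted size of the part of the cluster at `w` that comes from `R`. -/
noncomputable def B (b : ℝ) (R : Finset V) (s : St V α) (w : V) : ℝ :=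
  ∑ u ∈ R, if s.1 u = Sum.inl w then b ^ (s.2 u) else 0

def hit (R : Finset V) (s : St V α) (w : V) : Prop := ∃ u ∈ R, s.1 u = Sum.inl w

instance (R : Finset V) (s : St V α) (w : V) : Decidable (hit R s w) := by
  unfold hit; infer_instance

def Dep (R : Finset V) (Y : St V α → ℝ) : Prop :=
  ∀ s s' : St V α, (∀ u ∈ R, s.1 u = s'.1 u ∧ s.2 u = s'.2 u) → Y s = Y s'

omit [Fintype V] [Fintype α] in
lemma step_agree {R : Finset V} {s s' : St V α} (h : ∀ u ∈ R, s.1 u = s'.1 u ∧ s.2 u = s'.2 u)
    (v : V) (z : V ⊕ α) :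
    ∀ u ∈ R, (step s v z).1 u = (step s' v z).1 u ∧ (step s v z).2 u = (step s' v z).2 u := by
  intro u hu
  simp only [step, (h u hu).1, (h u hu).2, and_self]

omit [Fintype V] [Fintype α] in
lemma step_nohit {R : Finset V} {s : St V α} {v : V} (h : ¬ hit R s v) (z : V ⊕ α) :
    ∀ u ∈ R, (step s v z).1 u = s.1 u ∧ (step s v z).2 u = s.2 u := by
  intro u hu
  have : s.1 u ≠ Sum.inl v := fun e => h ⟨u, hu, e⟩
  simp [step, this]

omit [Fintype V] [Fintype α] in
lemma B_nonneg {b : ℝ} (hb : 1 < b) (R : Finset V) (s : St V α) (w : V) : 0 ≤ B b R s w :=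
  sum_nonneg fun u _ => by split_ifs <;> positivity

omit [Fintype V] [Fintype α] in
lemma B_nohit (b : ℝ) {R : Finset V} {s : St V α} {w : V} (h : ¬ hit R s w) : B b R s w = 0 :=
  sum_eq_zero fun u hu => if_neg fun e => h ⟨u, hu, e⟩

omit [Fintype V] [Fintype α] in
lemma B_hit {b : ℝ} (hb : 1 < b) {R : Finset V} {s : St V α} {w : V} (h : hit R s w) :
    1 ≤ B b R s w := by
  obtain ⟨u, hu, e⟩ := h
  have h1 : (if s.1 u = Sum.inl w then b ^ (s.2 u) else 0) ≤ B b R s w :=
    single_le_sum (f := fun u => if s.1 u = Sum.inl w then b ^ (s.2 u) else (0 : ℝ))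
      (fun u _ => by split_ifs <;> positivity) hu
  rw [if_pos e] at h1
  exact (one_le_pow₀ hb.le).trans h1

omit [Fintype V] [Fintype α] in
lemma B_dep (b : ℝ) (R : Finset V) (w : V) : Dep R (fun s : St V α => B b R s w) := by
  intro s s' h
  exact sum_congr rfl fun u hu => by rw [(h u hu).1, (h u hu).2]

omit [Fintype V] [Fintype α] [DecidableEq V] [DecidableEq α] in
lemma hit_congr {R : Finset V} {s s' : St V α} (h : ∀ u ∈ R, s.1 u = s'.1 u ∧ s.2 u = s'.2 u)
    (w : V) : hit R s w ↔ hit R s' w := by
  constructor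
  · rintro ⟨u, hu, e⟩; exact ⟨u, hu, (h u hu).1 ▸ e⟩
  · rintro ⟨u, hu, e⟩; exact ⟨u, hu, (h u hu).1.symm ▸ e⟩

omit [Fintype V] [Fintype α] in
lemma B_step (b : ℝ) (R : Finset V) (s : St V α) (v w : V) {z : V ⊕ α} (hz : z ≠ Sum.inl v) :
    B b R (step s v z) w =
      (if w = v then 0 else B b R s w) + (if z = Sum.inl w then b * B b R s v else 0) := by
  have e1 : (if w = v then 0 else B b R s w) =
      ∑ u ∈ R, if w = v then 0 else (if s.1 u = Sum.inl w then b ^ (s.2 u) else 0) := by
    split_ifs <;> simp [B]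
  have e2 : (if z = Sum.inl w then b * B b R s v else 0) =
      ∑ u ∈ R, if z = Sum.inl w then b * (if s.1 u = Sum.inl v then b ^ (s.2 u) else 0) else 0 := by
    split_ifs <;> simp [B, mul_sum]
  rw [e1, e2, ← sum_add_distrib]
  refine sum_congr rfl fun u _ => ?_
  by_cases h1 : s.1 u = Sum.inl v
  · by_cases h2 : w = v
    · subst h2; simp [step, h1, hz]
    · have : ¬ (v = w) := fun e => h2 e.symm
      simp [step, h1, hz, h2, this, pow_succ, mul_comm]
  · by_cases h2 : w = v
    · subst h2; simp [step, h1, hz]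
    · simp [step, h1, h2]

omit [Fintype V] [Fintype α] in
lemma hit_step (R : Finset V) (s : St V α) (v w : V) {z : V ⊕ α} (hz : z ≠ Sum.inl v) :
    hit R (step s v z) w ↔ (w ≠ v ∧ hit R s w) ∨ (z = Sum.inl w ∧ hit R s v) := by
  constructor
  · rintro ⟨u, hu, e⟩
    simp only [step] at e
    split_ifs at e with h1
    · exact Or.inr ⟨e, u, hu, h1⟩
    · refine Or.inl ⟨fun e2 => h1 (e2 ▸ e), u, hu, e⟩
  · rintro (⟨h1, u, hu, e⟩ | ⟨h1, u, hu, e⟩)
    · refine ⟨u, hu, ?_⟩
      have : s.1 u ≠ Sum.inl v := by rw [e]; simpa using h1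
      show (if s.1 u = Sum.inl v then z else s.1 u) = Sum.inl w
      rw [if_neg this, e]
    · exact ⟨u, hu, by simp [step, e, h1]⟩

/-- The standing hypotheses on the one-step law. -/
structure Hyp (p : V → V ⊕ α → ℝ) (h b β D : ℝ) (k : V → V → ℝ) (d : V → ℝ) : Prop where
  p0 : ∀ v z, 0 ≤ p v z
  p1 : ∀ v, ∑ z, p v z = 1
  h0 : 0 ≤ h
  h1 : h ≤ 1
  b1 : 1 < b
  β0 : 0 ≤ β
  β1 : β < 1
  pself : ∀ v, p v (Sum.inl v) = 1 - h
  pmove : ∀ v w, w ≠ v → b * p v (Sum.inl w) = h * β * k v w
  k0 : ∀ v w, 0 ≤ k v w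
  kself : ∀ v, k v v = 0
  kd : ∀ w, ∑ v, d v * k v w ≤ d w
  d1 : ∀ v, 1 ≤ d v
  dD : ∀ v, d v ≤ D

noncomputable def eo (β : ℝ) (k : V → V → ℝ) (d : V → ℝ) (o : V → ℝ) (w : V) : ℝ :=
  d w + β * ∑ v, k v w * o v

noncomputable def out (h β : ℝ) (k : V → V → ℝ) (d : V → ℝ) : List V → V → ℝ
  | [] => fun _ => 0
  | v :: L => Function.update (out h β k d L) v
      (out h β k d L v + h * (eo β k d (out h β k d L) v - out h β k d L v))

lemma eo_update (β : ℝ) (k : V → V → ℝ) (d : V → ℝ) (o : V → ℝ) (v w : V) (x : ℝ) :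
    eo β k d (Function.update o v (o v + x)) w = eo β k d o w + β * k v w * x := by
  unfold eo
  have : ∑ u, k u w * Function.update o v (o v + x) u =
      ∑ u, (k u w * o u + if u = v then k v w * x else 0) := by
    refine sum_congr rfl fun u _ => ?_
    by_cases e : u = v
    · subst e; simp [mul_add]
    · simp [e]
  rw [this, sum_add_distrib]
  simp
  ring

section Main
variable {p : V → V ⊕ α → ℝ} {h b β D : ℝ} {k : V → V → ℝ} {d : V → ℝ}

omit [DecidableEq V] [DecidableEq α] in
lemma eo_le (H : Hyp p h b β D k d) {o : V → ℝ} (ho : ∀ v, o v ≤ d v / (1 - β)) (w : V) :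
    eo β k d o w ≤ d w / (1 - β) := by
  have hβ : 0 < 1 - β := by linarith [H.β1]
  have h1 : ∑ v, k v w * o v ≤ ∑ v, d v * k v w / (1 - β) := by
    refine sum_le_sum fun v _ => ?_
    have := mul_le_mul_of_nonneg_left (ho v) (H.k0 v w)
    calc k v w * o v ≤ k v w * (d v / (1 - β)) := this
      _ = d v * k v w / (1 - β) := by ring
  rw [← sum_div] at h1
  have h2 : (∑ v, d v * k v w) / (1 - β) ≤ d w / (1 - β) :=
    div_le_div_of_nonneg_right (H.kd w) hβ.le
  have h3 := mul_le_mul_of_nonneg_left (h1.trans h2) H.β0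
  unfold eo
  have e : d w / (1 - β) = d w + β * (d w / (1 - β)) := by field_simp; ring
  linarith

omit [DecidableEq α] in
lemma out_inv (H : Hyp p h b β D k d) (L : List V) :
    ∀ v, 0 ≤ out h β k d L v ∧ out h β k d L v ≤ eo β k d (out h β k d L) v ∧
      out h β k d L v ≤ d v / (1 - β) := by
  have hβ : 0 < 1 - β := by linarith [H.β1]
  induction L with
  | nil =>
    intro v
    have := H.d1 v
    refine ⟨le_rfl, ?_, ?_⟩
    · simp [out, eo]; linarith
    · simp only [out]; positivity
  | cons v L ih =>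
    intro w
    have hc : 0 ≤ eo β k d (out h β k d L) v - out h β k d L v := by linarith [(ih v).2.1]
    have hx : 0 ≤ h * (eo β k d (out h β k d L) v - out h β k d L v) := mul_nonneg H.h0 hc
    have hx1 : h * (eo β k d (out h β k d L) v - out h β k d L v) ≤
        eo β k d (out h β k d L) v - out h β k d L v := mul_le_of_le_one_left hc H.h1
    have he := eo_le H (fun u => (ih u).2.2) v
    simp only [out]
    rw [eo_update]
    have hk : 0 ≤ β * k v w * (h * (eo β k d (out h β k d L) v - out h β k d L v)) :=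
      mul_nonneg (mul_nonneg H.β0 (H.k0 v w)) hx
    by_cases e : w = v
    · subst e
      simp only [Function.update_self]
      refine ⟨by linarith [(ih w).1], by linarith, by linarith⟩
    · simp only [Function.update_of_ne e]
      refine ⟨(ih w).1, by linarith [(ih w).2.1], (ih w).2.2⟩

/-- The majorant of the conditional mean of the cluster weight. -/
noncomputable def Phi (b β κ : ℝ) (k : V → V → ℝ) (d : V → ℝ) (o : V → ℝ) (R : Finset V)
    (s : St V α) (w : V) : ℝ :=
  if hit R s w then κ * (B b R s w - 1) + eo β k d o w else eo β k d o w - o w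

omit [Fintype α] in
lemma Phi_dep (b β κ : ℝ) (k : V → V → ℝ) (d : V → ℝ) (o : V → ℝ) (R : Finset V) (w : V) :
    Dep R (fun s : St V α => Phi b β κ k d o R s w) := by
  intro s s' hs
  have e1 := B_dep b R w s s' hs
  have e2 := hit_congr hs w
  simp only [Phi] at *
  simp only [e1, e2]

/-- coefficient of the old weight at `w`. -/
def a1 (v w : V) (z : V ⊕ α) : ℝ := if z = Sum.inl v then 1 else if w = v then 0 else 1
/-- coefficient of the old weight at `v`. -/
def a2 (b : ℝ) (v w : V) (z : V ⊕ α) : ℝ :=
  if z = Sum.inl v then 0 else if z = Sum.inl w then b else 0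

omit [Fintype V] [Fintype α] in
lemma B_step' (b : ℝ) (R : Finset V) (s : St V α) (v w : V) (z : V ⊕ α) :
    B b R (step s v z) w = a1 v w z * B b R s w + a2 b v w z * B b R s v := by
  by_cases hz : z = Sum.inl v
  · subst hz; simp [step_self, a1, a2]
  · rw [B_step b R s v w hz]
    simp only [a1, a2, if_neg hz]
    split_ifs <;> simp

lemma Phi_step (H : Hyp p h b β D k d) {κ : ℝ} (hκ : b * (D / (1 - β)) ≤ (b - 1) * κ)
    (L : List V) (R : Finset V) (Y : St V α → ℝ) (hY : Dep R Y) (hY0 : ∀ s, 0 ≤ Y s)
    (v w : V) (s : St V α) :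
    ∑ z, p v z * (Y (step s v z) * (a1 v w z * Phi b β κ k d (out h β k d L) R s w +
        a2 b v w z * Phi b β κ k d (out h β k d L) R s v)) ≤
      ∑ z, p v z * (Y (step s v z) * Phi b β κ k d (out h β k d (v :: L)) R (step s v z) w) := by
  have hβ : 0 < 1 - β := by linarith [H.β1]
  have hb := H.b1
  set o := out h β k d L with ho
  have inv := out_inv H L
  have inv' := out_inv H (v :: L)
  rw [← ho] at inv
  have eE : ∀ u, eo β k d o u ≤ D / (1 - β) := fun u =>
    (eo_le H (fun u => (inv u).2.2) u).trans (div_le_div_of_nonneg_right (H.dD u) hβ.le)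
  have e0 : ∀ u, 0 ≤ eo β k d o u := fun u => (inv u).1.trans (inv u).2.1
  have hE0 : 0 ≤ D / (1 - β) := (e0 v).trans (eE v)
  have hκE : D / (1 - β) ≤ κ := by nlinarith
  have hκ0 : 0 ≤ κ := hE0.trans hκE
  set x := h * (eo β k d o v - o v) with hx
  have hx0 : 0 ≤ x := mul_nonneg H.h0 (by linarith [(inv v).2.1])
  have eo' : ∀ u, eo β k d (out h β k d (v :: L)) u = eo β k d o u + β * k v u * x := fun u => by
    simp only [out]; rw [eo_update]
  have hk : ∀ u, 0 ≤ β * k v u * x := fun u => mul_nonneg (mul_nonneg H.β0 (H.k0 v u)) hx0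
  have o'v : out h β k d (v :: L) v = o v + x := by simp [out, ho, hx]
  have o'w : ∀ u, u ≠ v → out h β k d (v :: L) u = o u := fun u hu => by
    simp [out, ho, Function.update_of_ne hu]
  by_cases hv : hit R s v
  · refine sum_le_sum fun z _ => mul_le_mul_of_nonneg_left
      (mul_le_mul_of_nonneg_left ?_ (hY0 _)) (H.p0 v z)
    by_cases hz : z = Sum.inl v
    · subst hz
      simp only [a1, a2, if_true, step_self, one_mul, zero_mul, add_zero, Phi, eo']
      split_ifs with hw
      · linarith [hk w]
      · have : w ≠ v := fun e => hw (e ▸ hv)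
        rw [o'w w this]; linarith [hk w]
    · have hB := B_step b R s v w hz
      have hH := hit_step R s v w hz
      have hBv := B_hit hb hv
      by_cases hwv : w = v
      · subst hwv
        have : ¬ hit R (step s w z) w := by rw [hH]; simp [hz]
        simp only [a1, a2, if_neg hz, if_true, zero_mul, add_zero, Phi, if_neg this]
        linarith [(inv' w).2.1]
      · by_cases hzw : z = Sum.inl w
        · have hh : hit R (step s v z) w := by rw [hH]; exact Or.inr ⟨hzw, hv⟩
          simp only [a1, a2, if_neg hz, if_neg hwv, if_pos hzw, one_mul, Phi, if_pos hh, if_pos hv,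
            hB, eo']
          split_ifs with hw
          · nlinarith [hk w, eE v]
          · rw [B_nohit b hw]
            nlinarith [hk w, eE v, (inv w).1]
        · have hh : hit R (step s v z) w ↔ hit R s w := by rw [hH]; simp [hzw, hwv]
          simp only [a1, a2, if_neg hz, if_neg hwv, if_neg hzw, one_mul, zero_mul, add_zero, Phi,
            hh, hB, eo', o'w w hwv]
          split_ifs with hw
          · linarith [hk w]
          · linarith [hk w]
  · have eY : ∀ z, Y (step s v z) = Y s := fun z => hY _ _ (step_nohit hv z)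
    have eP : ∀ z, Phi b β κ k d (out h β k d (v :: L)) R (step s v z) w =
        Phi b β κ k d (out h β k d (v :: L)) R s w := fun z =>
      Phi_dep b β κ k d _ R w _ _ (step_nohit hv z)
    simp only [eY, eP]
    rw [← sum_mul, H.p1 v, one_mul]
    have e1 : ∑ z, p v z * (Y s * (a1 v w z * Phi b β κ k d o R s w +
        a2 b v w z * Phi b β κ k d o R s v)) =
        Y s * ((∑ z, p v z * a1 v w z) * Phi b β κ k d o R s w +
          (∑ z, p v z * a2 b v w z) * Phi b β κ k d o R s v) := by
      rw [sum_mul, sum_mul, ← sum_add_distrib, mul_sum]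
      exact sum_congr rfl fun z _ => by ring
    rw [e1]
    refine mul_le_mul_of_nonneg_left ?_ (hY0 s)
    by_cases hwv : w = v
    · subst hwv
      have s1 : ∑ z, p w z * a1 w w z = 1 - h := by
        rw [← H.pself w]; simp [a1]
      have s2 : ∑ z, p w z * a2 b w w z = 0 := by
        refine sum_eq_zero fun z _ => ?_
        simp only [a2]; split_ifs <;> simp
      rw [s1, s2]
      simp only [Phi, if_neg hv, eo', o'v, H.kself]
      rw [hx]; apply le_of_eq; ring
    · have s1 : ∑ z, p v z * a1 v w z = 1 := by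
        rw [← H.p1 v]
        refine sum_congr rfl fun z _ => ?_
        simp [a1, hwv]
      have s2 : ∑ z, p v z * a2 b v w z = h * β * k v w := by
        rw [← H.pmove v w hwv, sum_eq_single (Sum.inl w)]
        · have : ¬ (w = v) := hwv
          simp [a2, this, mul_comm]
        · intro z _ hz; simp [a2, hz]
        · simp
      rw [s1, s2]
      simp only [Phi, if_neg hv, eo', o'w w hwv]
      rw [hx]
      split_ifs <;> (apply le_of_eq; ring)

lemma cond_bound (H : Hyp p h b β D k d) {κ : ℝ} (hκ : b * (D / (1 - β)) ≤ (b - 1) * κ)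
    (R : Finset V) (L : List V) : ∀ (Y : St V α → ℝ), Dep R Y → (∀ s, 0 ≤ Y s) → ∀ w : V,
    Ex p L (fun s => Y s * B b univ s w) ≤
      Ex p L (fun s => Y s * Phi b β κ k d (out h β k d L) R s w) := by
  induction L with
  | nil =>
    intro Y _ hY0 w
    simp only [Ex]
    refine mul_le_mul_of_nonneg_left ?_ (hY0 _)
    have h1 : B b univ ((Sum.inl, fun _ => 0) : St V α) w = 1 := by simp [B]
    have h2 := H.d1 w
    rw [h1]
    simp only [Phi, out, eo]
    split_ifs with hw
    · obtain ⟨u, hu, e⟩ := hw
      have e' : u = w := by simpa using e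
      subst e'
      have : B b R ((Sum.inl, fun _ => 0) : St V α) u = 1 := by simp [B, hu]
      rw [this]; simpa using h2
    · simpa using h2
  | cons v L ih =>
    intro Y hY hY0 w
    simp only [Ex]
    have hb := H.b1
    set Y1 : St V α → ℝ := fun s => ∑ z, p v z * a1 v w z * Y (step s v z) with hY1
    set Y2 : St V α → ℝ := fun s => ∑ z, p v z * a2 b v w z * Y (step s v z) with hY2
    have d1 : Dep R Y1 := fun s s' hs =>
      sum_congr rfl fun z _ => by rw [hY _ _ (step_agree hs v z)]
    have d2 : Dep R Y2 := fun s s' hs =>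
      sum_congr rfl fun z _ => by rw [hY _ _ (step_agree hs v z)]
    have n1 : ∀ s, 0 ≤ Y1 s := fun s => sum_nonneg fun z _ =>
      mul_nonneg (mul_nonneg (H.p0 v z) (by unfold a1; split_ifs <;> norm_num)) (hY0 _)
    have n2 : ∀ s, 0 ≤ Y2 s := fun s => sum_nonneg fun z _ =>
      mul_nonneg (mul_nonneg (H.p0 v z) (by unfold a2; split_ifs <;> linarith)) (hY0 _)
    have e1 : Tp p v (fun s => Y s * B b univ s w) =
        fun s => Y1 s * B b univ s w + Y2 s * B b univ s v := by
      funext s
      simp only [Tp, hY1, hY2, B_step', sum_mul, ← sum_add_distrib]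
      exact sum_congr rfl fun z _ => by ring
    rw [e1, Ex_add]
    refine (add_le_add (ih Y1 d1 n1 w) (ih Y2 d2 n2 v)).trans ?_
    rw [← Ex_add]
    refine Ex_mono H.p0 L fun s => ?_
    refine le_trans (le_of_eq ?_) (Phi_step H hκ L R Y hY hY0 v w s)
    simp only [hY1, hY2, sum_mul, ← sum_add_distrib]
    exact sum_congr rfl fun z _ => by ring

/-- One-step conditional variance. -/
def loc (p : V → V ⊕ α → ℝ) (v : V) (K : St V α → ℝ) (s : St V α) : ℝ :=
  ∑ z, p v z * (K (step s v z) - Tp p v K s) ^ 2

def Vr (p : V → V ⊕ α → ℝ) (L : List V) (K : St V α → ℝ) : ℝ :=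
  Ex p L (fun s => K s ^ 2) - Ex p L K ^ 2

lemma Vr_cons (H : Hyp p h b β D k d) (v : V) (L : List V) (K : St V α → ℝ) :
    Vr p (v :: L) K = Ex p L (loc p v K) + Vr p L (Tp p v K) := by
  have e : Tp p v (fun s => K s ^ 2) = fun s => loc p v K s + Tp p v K s ^ 2 := by
    funext s
    have : loc p v K s = ∑ z, (p v z * K (step s v z) ^ 2 -
        2 * Tp p v K s * (p v z * K (step s v z)) + Tp p v K s ^ 2 * p v z) :=
      sum_congr rfl fun z _ => by ring
    rw [this, sum_add_distrib, sum_sub_distrib, ← mul_sum, ← mul_sum, H.p1 v]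
    simp only [Tp]
    ring
  simp only [Vr, Ex]
  rw [e, Ex_add]
  ring

theorem var_mix (H : Hyp p h b β D k d) {κ : ℝ} (hκ : b * (D / (1 - β)) ≤ (b - 1) * κ)
    {ι : Type} [Fintype ι] (π : ι → ℝ) (hπ : ∀ i, 0 ≤ π i) (R : ι → Finset V) {δ : ℝ}
    (hδ : ∀ u, ∑ i, π i * (if u ∈ R i then 1 else 0) ≤ δ) (L : List V) :
    ∀ (K : ι → St V α → ℝ), (∀ i, Dep (R i) (K i)) →
      Vr p L (fun s => ∑ i, π i * K i s) ≤
        δ * (κ + D / (1 - β)) * ∑ i, π i * Vr p L (K i) := by
  have hβ : 0 < 1 - β := by linarith [H.β1]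
  have hb := H.b1
  induction L with
  | nil => intro K _; simp [Vr, Ex]
  | cons v L ih =>
    intro K hK
    have hδ0 : 0 ≤ δ := le_trans (sum_nonneg fun i _ => mul_nonneg (hπ i)
      (by split_ifs <;> norm_num)) (hδ v)
    have eT : Tp p v (fun s => ∑ i, π i * K i s) = fun s => ∑ i, π i * Tp p v (K i) s := by
      funext s
      simp only [Tp, mul_sum]
      rw [sum_comm]
      exact sum_congr rfl fun i _ => sum_congr rfl fun z _ => by ring
    have dT : ∀ i, Dep (R i) (Tp p v (K i)) := fun i s s' hs =>
      sum_congr rfl fun z _ => by rw [hK i _ _ (step_agree hs v z)]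
    have dl : ∀ i, Dep (R i) (loc p v (K i)) := fun i s s' hs =>
      sum_congr rfl fun z _ => by rw [hK i _ _ (step_agree hs v z), dT i _ _ hs]
    have l0 : ∀ i s, 0 ≤ loc p v (K i) s := fun i s =>
      sum_nonneg fun z _ => mul_nonneg (H.p0 v z) (sq_nonneg _)
    simp only [Vr_cons H]
    rw [eT]
    have h2 := ih (fun i => Tp p v (K i)) dT
    have h1 : Ex p L (loc p v (fun s => ∑ i, π i * K i s)) ≤
        δ * (κ + D / (1 - β)) * ∑ i, π i * Ex p L (loc p v (K i)) := by
      have pt : ∀ s, loc p v (fun s => ∑ i, π i * K i s) s ≤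
          ∑ i, (δ * π i) * (loc p v (K i) s / B b (R i) s v * B b univ s v) := by
        intro s
        have hz : ∀ z, (∑ i, π i * K i (step s v z) - ∑ i, π i * Tp p v (K i) s) ^ 2 ≤
            δ * B b univ s v * ∑ i, π i * ((K i (step s v z) - Tp p v (K i) s) ^ 2 /
              B b (R i) s v) := by
          intro z
          rw [← sum_sub_distrib]
          have cs := sum_sq_le_sum_mul_sum_of_sq_eq_mul (univ : Finset ι)
            (r := fun i => π i * K i (step s v z) - π i * Tp p v (K i) s)
            (f := fun i => π i * B b (R i) s v)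
            (g := fun i => π i * ((K i (step s v z) - Tp p v (K i) s) ^ 2 / B b (R i) s v))
            (fun i _ => mul_nonneg (hπ i) (B_nonneg hb _ _ _))
            (fun i _ => mul_nonneg (hπ i) (div_nonneg (sq_nonneg _) (B_nonneg hb _ _ _)))
            (fun i _ => by
              by_cases hh : hit (R i) s v
              · have : B b (R i) s v ≠ 0 := by linarith [B_hit hb hh]
                field_simp
              · have e1 : ∀ z', K i (step s v z') = K i s := fun z' => hK i _ _ (step_nohit hh z')
                have e2 : Tp p v (K i) s = K i s := by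
                  simp only [Tp, e1]; rw [← sum_mul, H.p1 v, one_mul]
                rw [e1, e2]; simp)
          refine cs.trans (mul_le_mul_of_nonneg_right ?_ (sum_nonneg fun i _ =>
            mul_nonneg (hπ i) (div_nonneg (sq_nonneg _) (B_nonneg hb _ _ _))))
          have e3 : ∑ i, π i * B b (R i) s v = ∑ u, (∑ i, π i * (if u ∈ R i then 1 else 0)) *
              (if s.1 u = Sum.inl v then b ^ (s.2 u) else 0) := by
            simp only [sum_mul]
            rw [sum_comm]
            refine sum_congr rfl fun i _ => ?_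
            simp only [B, mul_sum]
            rw [← sum_subset (subset_univ (R i))]
            · exact sum_congr rfl fun u hu => by simp [hu]
            · intro u _ hu; simp [hu]
          rw [e3, B, mul_sum]
          exact sum_le_sum fun u _ => mul_le_mul_of_nonneg_right (hδ u)
            (by split_ifs <;> positivity)
        have : loc p v (fun s => ∑ i, π i * K i s) s ≤ ∑ z, p v z * (δ * B b univ s v *
            ∑ i, π i * ((K i (step s v z) - Tp p v (K i) s) ^ 2 / B b (R i) s v)) := by
          unfold loc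
          rw [eT]
          exact sum_le_sum fun z _ => mul_le_mul_of_nonneg_left (hz z) (H.p0 v z)
        refine this.trans (le_of_eq ?_)
        simp only [loc, mul_sum, sum_div, sum_mul]
        rw [sum_comm]
        exact sum_congr rfl fun i _ => sum_congr rfl fun z _ => by ring
      refine (Ex_mono H.p0 L pt).trans ?_
      rw [Ex_sum, mul_sum]
      refine sum_le_sum fun i _ => ?_
      have c1 := cond_bound H hκ (R i) L (fun s => loc p v (K i) s / B b (R i) s v)
        (fun s s' hs => by
          have e1 := dl i s s' hs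
          have e2 := B_dep b (R i) v s s' hs
          simp only at e1 e2 ⊢
          rw [e1, e2])
        (fun s => div_nonneg (l0 i s) (B_nonneg hb _ _ _)) v
      have inv := out_inv H L
      have eE : eo β k d (out h β k d L) v ≤ D / (1 - β) :=
        (eo_le H (fun u => (inv u).2.2) v).trans (div_le_div_of_nonneg_right (H.dD v) hβ.le)
      have hE0 : 0 ≤ D / (1 - β) := ((inv v).1.trans (inv v).2.1).trans eE
      have hκ0 : 0 ≤ κ := by nlinarith
      have c2 : Ex p L (fun s => loc p v (K i) s / B b (R i) s v *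
          Phi b β κ k d (out h β k d L) (R i) s v) ≤
          Ex p L (fun s => ∑ _j : Unit, (κ + D / (1 - β)) * loc p v (K i) s) := by
        refine Ex_mono H.p0 L fun s => ?_
        simp only [univ_unique, sum_singleton]
        by_cases hh : hit (R i) s v
        · have hB := B_hit hb hh
          have : Phi b β κ k d (out h β k d L) (R i) s v ≤ (κ + D / (1 - β)) * B b (R i) s v := by
            simp only [Phi, if_pos hh]; nlinarith
          refine (mul_le_mul_of_nonneg_left this (div_nonneg (l0 i s) (by linarith))).trans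
            (le_of_eq ?_)
          field_simp
        · rw [B_nohit b hh, div_zero, zero_mul]
          exact mul_nonneg (by linarith) (l0 i s)
      rw [Ex_sum] at c2
      simp only [univ_unique, sum_singleton] at c2
      have c3 := mul_le_mul_of_nonneg_left (c1.trans c2) (mul_nonneg hδ0 (hπ i))
      refine c3.trans (le_of_eq ?_)
      ring
    simp only [mul_add, sum_add_distrib]
    simp only [mul_add] at h1 h2
    linarith

end Main

end H380NV
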