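import Pool.Agent.H380Z.NV.Exp
import Pool.Agent.H380Z.NV.Disc

set_option autoImplicit false
set_option linter.unusedSectionVars false

open Finset Filter Topology NormedSpace

noncomputable section

namespace H380NV

variable {V α β : Type} [Fintype V] [DecidableEq V] [Fintype α] [DecidableEq α]
  [Fintype β] [DecidableEq β]
variable (G : SimpleGraph V) [DecidableRel G.Adj] (θ : ℝ)

/-- Law of the move made when the clock at `v` rings. -/
def rate (v : V) (z : V ⊕ α) : ℝ :=
  Sum.elim (fun w => if G.Adj v w then (1 - θ) / G.degree v else 0)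
    (fun _ => θ / Fintype.card α) z

def mv (c : α → β) (v : V) (z : V ⊕ α) (x : V → β) : V → β :=
  Function.update x v (Sum.elim x c z)

def act (c : α → β) (ψ : V → V ⊕ α) (x : V → β) : V → β := fun u => Sum.elim x c (ψ u)

def QvL (c : α → β) (v : V) : ((V → β) → ℝ) →ₗ[ℝ] ((V → β) → ℝ) where
  toFun f := fun x => ∑ z, rate G θ v z * f (mv c v z x) - f x
  map_add' f g := by
    funext x; simp only [Pi.add_apply, mul_add, sum_add_distrib]; ring
  map_smul' a f := by
    funext x
    simp only [Pi.smul_apply, smul_eq_mul, RingHom.id_apply, mul_sub, mul_sum]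
    congr 1
    exact sum_congr rfl fun z _ => by ring

def Qv (c : α → β) (v : V) : ((V → β) → ℝ) →L[ℝ] ((V → β) → ℝ) :=
  LinearMap.toContinuousLinearMap (QvL G θ c v)

lemma Qv_apply (c : α → β) (v : V) (f : (V → β) → ℝ) (x : V → β) :
    Qv G θ c v f x = ∑ z, rate G θ v z * f (mv c v z x) - f x := rfl

def Qg (c : α → β) : ((V → β) → ℝ) →L[ℝ] ((V → β) → ℝ) := ∑ v, Qv G θ c v

lemma Qg_apply (c : α → β) (f : (V → β) → ℝ) (x : V → β) :
    Qg G θ c f x = ∑ v, (∑ z, rate G θ v z * f (mv c v z x) - f x) := by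
  simp only [Qg, _root_.sum_apply, Finset.sum_apply, Qv_apply]

def Pt (c : α → β) (t : ℝ) : ((V → β) → ℝ) →L[ℝ] ((V → β) → ℝ) := exp (t • Qg G θ c)

def pp (h : ℝ) (v : V) (z : V ⊕ α) : ℝ :=
  h * rate G θ v z + if z = Sum.inl v then 1 - h else 0

def Uw (c : α → β) (h : ℝ) (L : List V) : ((V → β) → ℝ) →L[ℝ] ((V → β) → ℝ) :=
  (L.map fun v => 1 + h • Qv G θ c v).prod

lemma mv_self (c : α → β) (v : V) (x : V → β) : mv c v (Sum.inl v) x = x := by
  simp [mv]

lemma act_step (c : α → β) (s : St V α) (v : V) (z : V ⊕ α) (x : V → β) :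
    act c (step s v z).1 x = act c s.1 (mv c v z x) := by
  funext u
  simp only [act, step]
  split_ifs with h
  · rw [h]; simp [mv]
  · rcases hu : s.1 u with w | a
    · have : w ≠ v := fun e => h (by rw [hu, e])
      simp [mv, Function.update_of_ne this]
    · simp

lemma T_apply (c : α → β) (h : ℝ) (v : V) (f : (V → β) → ℝ) (x : V → β) :
    (1 + h • Qv G θ c v) f x = ∑ z, pp G θ h v z * f (mv c v z x) := by
  simp only [pp, add_mul, sum_add_distrib, ite_mul, zero_mul, sum_ite_eq', mem_univ, if_true,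
    mv_self, add_apply, smul_apply, Pi.add_apply, Pi.smul_apply, smul_eq_mul,
    Qv_apply, one_apply_eq_self, mul_sub, mul_sum, mul_assoc]
  ring

lemma Ex_act (c : α → β) (h : ℝ) (g : (V → β) → ℝ) (L : List V) :
    ∀ x : V → β, Ex (pp G θ h) L (fun s => g (act c s.1 x)) = Uw G θ c h L g x := by
  induction L with
  | nil => intro x; simp only [Ex, Uw]; rfl
  | cons v L ih =>
    intro x
    simp only [Ex]
    have e : Tp (pp G θ h) v (fun s : St V α => g (act c s.1 x)) =
        fun s => ∑ z, pp G θ h v z * g (act c s.1 (mv c v z x)) := by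
      funext s; simp only [Tp, act_step]
    rw [e, Ex_sum]
    simp only [ih]
    rw [← T_apply]
    simp only [Uw, List.map_cons, List.prod_cons, mul_apply_eq_comp]

lemma Uw_zero (c : α → β) (L : List V) : Uw G θ c 0 L = 1 := by
  simp [Uw]

lemma Uw_deriv (c : α → β) (L : List V) :
    HasDerivAt (fun h => Uw G θ c h L) (L.map (Qv G θ c)).sum 0 := by
  induction L with
  | nil => simpa [Uw] using hasDerivAt_const (0 : ℝ) (1 : ((V → β) → ℝ) →L[ℝ] ((V → β) → ℝ))
  | cons v L ih =>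
    have h1 : HasDerivAt (fun h : ℝ => 1 + h • Qv G θ c v) (Qv G θ c v) 0 := by
      simpa using ((hasDerivAt_id (0 : ℝ)).smul_const (Qv G θ c v)).const_add 1
    have h2 := h1.mul ih
    have e : (fun h => Uw G θ c h (v :: L)) =
        (fun h : ℝ => 1 + h • Qv G θ c v) * fun h => Uw G θ c h L := by
      funext h; simp [Uw]
    rw [e]
    have e2 : (List.map (Qv G θ c) (v :: L)).sum = Qv G θ c v * Uw G θ c 0 L +
        (1 + (0 : ℝ) • Qv G θ c v) * (L.map (Qv G θ c)).sum := by
      simp [Uw_zero]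
    rw [e2]
    exact h2

def LL (V : Type) [Fintype V] (N : ℕ) : List V := (List.replicate N (univ : Finset V).toList).flatten

lemma Uw_LL (c : α → β) (h : ℝ) (N : ℕ) :
    Uw G θ c h (LL V N) = Uw G θ c h (univ : Finset V).toList ^ N := by
  induction N with
  | zero => simp [LL, Uw]
  | succ N ih =>
    rw [pow_succ', ← ih]
    simp [LL, Uw, List.replicate_succ]

lemma Ex_lim (c : α → β) (t : ℝ) (g : (V → β) → ℝ) (x : V → β) :
    Tendsto (fun N : ℕ => Ex (pp G θ (t / N)) (LL V N) (fun s => g (act c s.1 x))) atTop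
      (𝓝 (Pt G θ c t g x)) := by
  have hd := Uw_deriv G θ c (univ : Finset V).toList
  rw [Finset.sum_map_toList] at hd
  have h1 := chernoff (A := ((V → β) → ℝ) →L[ℝ] ((V → β) → ℝ)) ContinuousLinearMap.norm_id_le
    (fun h => Uw G θ c h (univ : Finset V).toList) _ (Uw_zero G θ c _) hd t
  have h2 : Continuous fun M : ((V → β) → ℝ) →L[ℝ] ((V → β) → ℝ) => M g x :=
    (continuous_apply x).comp (ContinuousLinearMap.apply ℝ _ g).continuous
  have h3 := (h2.tendsto _).comp h1
  simp only [Ex_act, Uw_LL]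
  exact h3

/-- Standing assumptions on the graph and the noise. -/
structure Good (D : ℝ) : Prop where
  t0 : 0 < θ
  t1 : θ < 1
  d1 : ∀ v, 1 ≤ G.degree v
  dD : ∀ v, (G.degree v : ℝ) ≤ D

variable {G θ}

lemma rate_nonneg {D : ℝ} (H : Good G θ D) (v : V) (z : V ⊕ α) : 0 ≤ rate G θ v z := by
  have := H.t0; have := H.t1
  rcases z with w | a
  · simp only [rate, Sum.elim_inl]
    split_ifs
    · exact div_nonneg (by linarith) (Nat.cast_nonneg _)
    · exact le_rfl
  · simp only [rate, Sum.elim_inr]; positivity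

lemma sum_adj (v : V) (a : ℝ) : ∑ w, (if G.Adj v w then a else 0) = G.degree v * a := by
  rw [← sum_filter, sum_const, nsmul_eq_mul, ← SimpleGraph.neighborFinset_eq_filter]
  rfl

lemma rate_sum [Nonempty α] {D : ℝ} (H : Good G θ D) (v : V) : ∑ z : V ⊕ α, rate G θ v z = 1 := by
  have h1 : (G.degree v : ℝ) ≠ 0 := by have := H.d1 v; positivity
  have h2 : (Fintype.card α : ℝ) ≠ 0 := by have := Fintype.card_pos (α := α); positivity
  rw [Fintype.sum_sum_type]
  simp only [rate, Sum.elim_inl, Sum.elim_inr, sum_adj, sum_const, card_univ, nsmul_eq_mul]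
  field_simp
  ring

lemma hyp [Nonempty α] {D : ℝ} (H : Good G θ D) {h : ℝ} (h0 : 0 ≤ h) (h1 : h ≤ 1) :
    Hyp (pp G θ h : V → V ⊕ α → ℝ) h (1 + θ) (1 - θ ^ 2) D
      (fun v w => if G.Adj v w then 1 / G.degree v else 0) (fun v => G.degree v) where
  p0 v z := by
    have := rate_nonneg H v z
    unfold pp
    split_ifs
    · nlinarith
    · nlinarith
  p1 v := by
    simp only [pp, sum_add_distrib, ← mul_sum, rate_sum H, sum_ite_eq', mem_univ, if_true]; ring
  h0 := h0
  h1 := h1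
  b1 := by linarith [H.t0]
  β0 := by nlinarith [H.t0, H.t1]
  β1 := by nlinarith [H.t0]
  pself v := by simp [pp, rate]
  pmove v w hw := by
    simp only [pp, rate, Sum.elim_inl, Sum.inl.injEq, if_neg hw]
    split_ifs <;> ring
  k0 v w := by split_ifs <;> positivity
  kself v := by simp
  kd w := by
    have : ∀ v, (G.degree v : ℝ) * (if G.Adj v w then 1 / (G.degree v : ℝ) else 0) =
        if G.Adj w v then 1 else 0 := by
      intro v
      have h1 : (G.degree v : ℝ) ≠ 0 := by have := H.d1 v; positivity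
      simp only [G.adj_comm w v]
      split_ifs
      · field_simp
      · simp
    simp only [this, sum_adj, mul_one, le_refl]
  d1 v := by exact_mod_cast H.d1 v
  dD := H.dD

lemma ev_h {t : ℝ} (ht : 0 ≤ t) : ∀ᶠ N : ℕ in atTop, 0 ≤ t / N ∧ t / N ≤ 1 := by
  have := (tendsto_const_div_atTop_nhds_zero_nat t).eventually (ge_mem_nhds one_pos)
  filter_upwards [this] with N hN
  exact ⟨by positivity, hN⟩

lemma Pt_mono [Nonempty α] {D : ℝ} (H : Good G θ D) (c : α → β) {t : ℝ} (ht : 0 ≤ t)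
    {f g : (V → β) → ℝ} (hfg : ∀ y, f y ≤ g y) (x : V → β) : Pt G θ c t f x ≤ Pt G θ c t g x := by
  refine le_of_tendsto_of_tendsto (Ex_lim G θ c t f x) (Ex_lim G θ c t g x) ?_
  filter_upwards [ev_h ht] with N hN
  exact Ex_mono (hyp H hN.1 hN.2).p0 _ fun s => hfg _

lemma Pt_const [Nonempty α] {D : ℝ} (H : Good G θ D) (c : α → β) (t a : ℝ) (x : V → β) :
    Pt G θ c t (fun _ => a) x = a := by
  have h : Qg G θ c (fun _ => a) = (0 : ℝ) • (fun _ => a) := by
    funext y
    simp only [Qg_apply, ← sum_mul, rate_sum H]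
    simp
  have := exp_eigen (Qg G θ c) _ 0 h t
  unfold Pt
  rw [this]; simp

lemma Pt_add (c : α → β) (s t : ℝ) (f : (V → β) → ℝ) :
    Pt G θ c (s + t) f = Pt G θ c s (Pt G θ c t f) := by
  have h : Pt G θ c (s + t) = Pt G θ c s * Pt G θ c t := exp_smul_add (Qg G θ c) s t
  rw [h, mul_apply_eq_comp]

/-- The constant of the variance inequality. -/
def Cv (θ D : ℝ) : ℝ := (1 + θ) * (D / θ ^ 2) / θ + D / θ ^ 2

theorem var_cont [Nonempty α] {D : ℝ} (H : Good G θ D) (c : α → β) {t : ℝ} (ht : 0 ≤ t) (x : V → β)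
    {ι : Type} [Fintype ι] (π : ι → ℝ) (hπ : ∀ i, 0 ≤ π i) (R : ι → Finset V) {δ : ℝ}
    (hδ : ∀ u, ∑ i, π i * (if u ∈ R i then 1 else 0) ≤ δ) (g : ι → (V → β) → ℝ)
    (hg : ∀ i y y', (∀ u ∈ R i, y u = y' u) → g i y = g i y') :
    Pt G θ c t (fun y => (∑ i, π i * g i y) ^ 2) x - Pt G θ c t (fun y => ∑ i, π i * g i y) x ^ 2 ≤
      δ * Cv θ D * ∑ i, π i * (Pt G θ c t (fun y => g i y ^ 2) x - Pt G θ c t (g i) x ^ 2) := by
  have ht0 := H.t0
  have l1 := (Ex_lim G θ c t (fun y => (∑ i, π i * g i y) ^ 2) x).sub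
    ((Ex_lim G θ c t (fun y => ∑ i, π i * g i y) x).pow 2)
  have l2 := (tendsto_finsetSum univ fun i _ => (((Ex_lim G θ c t (fun y => g i y ^ 2) x).sub
    ((Ex_lim G θ c t (g i) x).pow 2)).const_mul (π i))).const_mul (δ * Cv θ D)
  refine le_of_tendsto_of_tendsto l1 l2 ?_
  filter_upwards [ev_h ht] with N hN
  have e : 1 - (1 - θ ^ 2) = θ ^ 2 := by ring
  have := var_mix (hyp (α := α) H hN.1 hN.2) (κ := (1 + θ) * (D / θ ^ 2) / θ)
    (by rw [e]; apply le_of_eq; field_simp; ring) π hπ R hδ (LL V N)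
    (fun i s => g i (act c s.1 x))
    (fun i s s' hs => hg i _ _ fun u hu => by simp only [act, (hs u hu).1])
  rw [e] at this
  exact this

/-- Functoriality in the colour space. -/
lemma Pt_map {γ : Type} [Fintype γ] [DecidableEq γ] (c : α → β) (c' : α → γ) (φ : β → γ)
    (hφ : ∀ a, φ (c a) = c' a) (t : ℝ) (g : (V → γ) → ℝ) (x : V → β) :
    Pt G θ c t (fun y => g (fun u => φ (y u))) x = Pt G θ c' t g (fun u => φ (x u)) := by
  refine tendsto_nhds_unique (Ex_lim G θ c t _ x) ?_
  have := Ex_lim G θ c' t g (fun u => φ (x u))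
  convert this using 5 with N s
  funext u
  simp only [act]
  rcases s.1 u with w | a
  · rfl
  · exact hφ a

/-- Law of the random map at time `s`. -/
def law (G : SimpleGraph V) [DecidableRel G.Adj] (θ : ℝ) (s : ℝ) (l : V → V ⊕ α) : ℝ :=
  Pt G θ (Sum.inr : α → V ⊕ α) s (fun ψ => if ψ = l then 1 else 0) Sum.inl

lemma Pt_eq_sum (c : α → β) (t : ℝ) (g : (V → β) → ℝ) (x : V → β) :
    Pt G θ c t g x = ∑ y, Pt G θ c t (fun z => if z = y then 1 else 0) x * g y := by
  have e : g = ∑ y, g y • (fun z => if z = y then (1 : ℝ) else 0) := by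
    funext z; simp [Finset.sum_apply]
  conv_lhs => rw [e]
  simp only [map_sum, map_smul, Finset.sum_apply, Pi.smul_apply, smul_eq_mul]
  exact sum_congr rfl fun y _ => mul_comm _ _

lemma Pt_law (c : α → β) (s : ℝ) (g : (V → β) → ℝ) (x : V → β) :
    Pt G θ c s g x = ∑ l, law G θ s l * g (act c l x) := by
  have h := Pt_map (G := G) (θ := θ) (Sum.inr : α → V ⊕ α) c (Sum.elim x c) (fun _ => rfl) s g
    Sum.inl
  have e : (fun u => Sum.elim x c (Sum.inl u)) = x := rfl
  rw [e] at h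
  rw [← h, Pt_eq_sum]
  rfl

lemma law_nonneg [Nonempty α] {D : ℝ} (H : Good G θ D) {s : ℝ} (hs : 0 ≤ s) (l : V → V ⊕ α) :
    0 ≤ law G θ s l := by
  have := Pt_mono H (Sum.inr : α → V ⊕ α) hs (f := fun _ => 0)
    (g := fun ψ => if ψ = l then 1 else 0) (fun y => by split_ifs <;> norm_num) Sum.inl
  rwa [Pt_const H] at this

lemma law_sum [Nonempty α] {D : ℝ} (H : Good G θ D) (s : ℝ) :
    ∑ l : V → V ⊕ α, law G θ s l = 1 := by
  have := Pt_eq_sum (G := G) (θ := θ) (Sum.inr : α → V ⊕ α) s (fun _ => 1) Sum.inl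
  rw [Pt_const H] at this
  simpa [law] using this.symm

def rng (l : V → V ⊕ α) : Finset V := univ.filter fun u => ∃ v, l v = Sum.inl u

lemma law_rng [Nonempty α] {D : ℝ} (H : Good G θ D) {s : ℝ} (hs : 0 ≤ s) (u : V) :
    ∑ l : V → V ⊕ α, law G θ s l * (if u ∈ rng l then 1 else 0) ≤ D * Real.exp (-(θ * s)) := by
  set Φ : (V → V ⊕ α) → ℝ := fun ψ => ∑ v, if ψ v = Sum.inl u then (G.degree v : ℝ) else 0 with hΦ
  have hQ : Qg G θ (Sum.inr : α → V ⊕ α) Φ = (-θ) • Φ := by
    funext ψ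
    have e1 : ∀ v z, Φ (mv Sum.inr v z ψ) = Φ ψ - (if ψ v = Sum.inl u then (G.degree v : ℝ) else 0) +
        (if Sum.elim ψ Sum.inr z = Sum.inl u then (G.degree v : ℝ) else 0) := by
      intro v z
      simp only [hΦ, mv]
      rw [← Finset.add_sum_erase _ _ (mem_univ v), ← Finset.add_sum_erase _ _ (mem_univ v)]
      have : ∑ w ∈ univ.erase v, (if Function.update ψ v (Sum.elim ψ Sum.inr z) w = Sum.inl u then
          (G.degree w : ℝ) else 0) =
          ∑ w ∈ univ.erase v, (if ψ w = Sum.inl u then (G.degree w : ℝ) else 0) :=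
        sum_congr rfl fun w hw => by rw [Function.update_of_ne (ne_of_mem_erase hw)]
      rw [this, Function.update_self]
      ring
    have e2 : ∀ v, ∑ z, rate G θ v z * Φ (mv Sum.inr v z ψ) - Φ ψ =
        (1 - θ) * (∑ w, if G.Adj v w then (if ψ w = Sum.inl u then (1 : ℝ) else 0) else 0) -
          (if ψ v = Sum.inl u then (G.degree v : ℝ) else 0) := by
      intro v
      have h1 : (G.degree v : ℝ) ≠ 0 := by have := H.d1 v; positivity
      simp only [e1, mul_add, sum_add_distrib, ← sum_mul, rate_sum H]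
      rw [Fintype.sum_sum_type, mul_sum]
      have : ∑ w, rate G θ v (Sum.inl w : V ⊕ α) *
          (if Sum.elim ψ Sum.inr (Sum.inl w : V ⊕ α) = Sum.inl u then (G.degree v : ℝ) else 0) =
          ∑ w, (1 - θ) * (if G.Adj v w then (if ψ w = Sum.inl u then (1 : ℝ) else 0) else 0) := by
        refine sum_congr rfl fun w _ => ?_
        by_cases a1 : G.Adj v w <;> by_cases a2 : ψ w = Sum.inl u <;> simp [rate, a1, a2]
        field_simp
      rw [this]
      simp
      ring
    simp only [Qg_apply, e2, sum_sub_distrib, ← mul_sum, Pi.smul_apply, smul_eq_mul]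
    rw [sum_comm]
    have e3 : ∑ w, ∑ v, (if G.Adj v w then (if ψ w = Sum.inl u then (1 : ℝ) else 0) else 0) =
        Φ ψ := by
      refine sum_congr rfl fun w _ => ?_
      simp only [G.adj_comm _ w, sum_adj]
      split_ifs <;> simp
    rw [e3]
    ring
  have h1 := congrFun (exp_eigen _ _ _ hQ s) Sum.inl
  have h2 : Φ Sum.inl = G.degree u := by simp [hΦ]
  have h3 := Pt_eq_sum (G := G) (θ := θ) (Sum.inr : α → V ⊕ α) s Φ Sum.inl
  have h4 : Pt G θ (Sum.inr : α → V ⊕ α) s Φ Sum.inl = Real.exp (-(θ * s)) * G.degree u := by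
    unfold Pt
    rw [h1, Pi.smul_apply, h2, smul_eq_mul]
    congr 2; ring
  have h5 : ∑ l : V → V ⊕ α, law G θ s l * (if u ∈ rng l then 1 else 0) ≤
      ∑ l : V → V ⊕ α, law G θ s l * Φ l := by
    refine sum_le_sum fun l _ => mul_le_mul_of_nonneg_left ?_ (law_nonneg H hs l)
    have n0 : ∀ v ∈ (univ : Finset V), 0 ≤ (if l v = Sum.inl u then (G.degree v : ℝ) else 0) :=
      fun v _ => by split_ifs <;> positivity
    split_ifs with hu
    · obtain ⟨v, hv⟩ := (mem_filter.1 hu).2
      have := single_le_sum n0 (mem_univ v)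
      rw [if_pos hv] at this
      have h6 : (1 : ℝ) ≤ G.degree v := by exact_mod_cast H.d1 v
      exact h6.trans this
    · exact sum_nonneg n0
  refine h5.trans ?_
  have : ∑ l : V → V ⊕ α, law G θ s l * Φ l = Real.exp (-(θ * s)) * G.degree u := by
    rw [← h4, h3]; rfl
  rw [this, mul_comm]
  exact mul_le_mul_of_nonneg_right (H.dD u) (Real.exp_pos _).le

end H380NV
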