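import Mathlib

set_option autoImplicit false

noncomputable section

namespace Pool.Agent.H380Z.NV

variable {V : Type} [Fintype V] [DecidableEq V]

/-- Generator of the `q`-state noisy voter model on `G` with noise `θ`: each vertex `v` is updated
at rate one; with probability `θ` it takes a uniform colour, with probability `1 - θ` it takes the
colour of a uniform neighbour. -/
def gen (G : SimpleGraph V) [DecidableRel G.Adj] (q : ℕ) (θ : ℝ) (f : (V → Fin q) → ℝ)
    (x : V → Fin q) : ℝ :=
  ∑ v : V, (θ * ((∑ a : Fin q, f (Function.update x v a)) / (q : ℝ)) +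
    (1 - θ) * ((∑ w ∈ G.neighborFinset v, f (Function.update x v (x w))) / (G.degree v : ℝ)) - f x)

/-- The semigroup `exp (t * gen)`, as an exponential series. -/
def semi (G : SimpleGraph V) [DecidableRel G.Adj] (q : ℕ) (θ t : ℝ) (f : (V → Fin q) → ℝ)
    (x : V → Fin q) : ℝ :=
  ∑' m : ℕ, t ^ m / (m.factorial : ℝ) * ((gen G q θ)^[m] f) x

/-- Probability that the chain started at `x` is at `y` at time `t`. -/
def prob (G : SimpleGraph V) [DecidableRel G.Adj] (q : ℕ) (θ t : ℝ) (x y : V → Fin q) : ℝ :=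
  semi G q θ t (fun z => if z = y then 1 else 0) x

/-- `μ` is a stationary law of the chain: a probability vector killed by the generator. -/
def IsStationary (G : SimpleGraph V) [DecidableRel G.Adj] (q : ℕ) (θ : ℝ)
    (μ : (V → Fin q) → ℝ) : Prop :=
  (∀ x, 0 ≤ μ x) ∧ ∑ x, μ x = 1 ∧ ∀ f : (V → Fin q) → ℝ, ∑ x, μ x * gen G q θ f x = 0

/-- Total variation distance. -/
def dTV {S : Type} [Fintype S] (ν μ : S → ℝ) : ℝ := (∑ y, |ν y - μ y|) / 2

/-- The `ε`-mixing time from the initial state `x`. -/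
def tmix (G : SimpleGraph V) [DecidableRel G.Adj] (q : ℕ) (θ : ℝ) (μ : (V → Fin q) → ℝ)
    (x : V → Fin q) (ε : ℝ) : ℝ :=
  sInf {t : ℝ | 0 ≤ t ∧ dTV (prob G q θ t x) μ ≤ ε}

end Pool.Agent.H380Z.NV
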