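import Mathlib

set_option autoImplicit false

open Filter Topology NormedSpace

namespace H380NV

section Alg
variable {A : Type*} [NormedRing A] [NormedAlgebra ℝ A] [CompleteSpace A]

lemma exp_add' {x y : A} (h : Commute x y) : exp (x + y) = exp x * exp y :=
  exp_add_of_commute_of_mem_ball (𝕂 := ℝ) h
    ((expSeries_radius_eq_top ℝ A).symm ▸ edist_lt_top _ _)
    ((expSeries_radius_eq_top ℝ A).symm ▸ edist_lt_top _ _)

lemma exp_smul_add (x : A) (s t : ℝ) : exp ((s + t) • x) = exp (s • x) * exp (t • x) := by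
  rw [add_smul]
  exact exp_add' (((Commute.refl x).smul_left s).smul_right t)

lemma exp_smul_pow (x : A) (t : ℝ) (N : ℕ) : exp (t • x) ^ N = exp (((N : ℝ) * t) • x) := by
  induction N with
  | zero => simp
  | succ N ih =>
    rw [pow_succ, ih, ← exp_smul_add]
    congr 2
    push_cast
    ring

omit [NormedAlgebra ℝ A] [CompleteSpace A] in
lemma norm_pow_le_of (h1 : ‖(1 : A)‖ ≤ 1) {a : A} {m : ℝ} (ha : ‖a‖ ≤ m) (N : ℕ) :
    ‖a ^ N‖ ≤ m ^ N := by
  have hm : 0 ≤ m := (norm_nonneg _).trans ha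
  induction N with
  | zero => simpa using h1
  | succ N ih =>
    rw [pow_succ, pow_succ]
    exact (norm_mul_le _ _).trans (mul_le_mul ih ha (norm_nonneg _) (pow_nonneg hm _))

lemma norm_exp_le (h1 : ‖(1 : A)‖ ≤ 1) (x : A) : ‖exp x‖ ≤ Real.exp ‖x‖ := by
  have hs := exp_series_hasSum_exp' (𝕂 := ℝ) x
  have hr : HasSum (fun n : ℕ => ((n.factorial : ℝ)⁻¹) • ‖x‖ ^ n) (Real.exp ‖x‖) := by
    rw [Real.exp_eq_exp_ℝ]
    exact exp_series_hasSum_exp' (𝕂 := ℝ) ‖x‖
  refine hs.norm_le_of_bounded hr ?_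
  intro n
  rw [norm_smul, smul_eq_mul, Real.norm_eq_abs, abs_of_nonneg (by positivity)]
  exact mul_le_mul_of_nonneg_left (norm_pow_le_of h1 le_rfl n) (by positivity)

omit [NormedAlgebra ℝ A] [CompleteSpace A] in
lemma norm_pow_sub_pow_le (h1 : ‖(1 : A)‖ ≤ 1) {a b : A} {m : ℝ} (hm : 1 ≤ m) (ha : ‖a‖ ≤ m)
    (hb : ‖b‖ ≤ m) (N : ℕ) : ‖a ^ N - b ^ N‖ ≤ N * m ^ N * ‖a - b‖ := by
  induction N with
  | zero => simp
  | succ N ih =>
    have e : a ^ (N + 1) - b ^ (N + 1) = a ^ N * (a - b) + (a ^ N - b ^ N) * b := by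
      rw [pow_succ, pow_succ]; noncomm_ring
    have h0 : 0 ≤ m ^ N := by positivity
    have h2 : ‖a ^ N * (a - b)‖ ≤ m ^ N * ‖a - b‖ :=
      (norm_mul_le _ _).trans (mul_le_mul_of_nonneg_right (norm_pow_le_of h1 ha N) (norm_nonneg _))
    have h3 : ‖(a ^ N - b ^ N) * b‖ ≤ N * m ^ N * ‖a - b‖ * m :=
      (norm_mul_le _ _).trans (mul_le_mul ih hb (norm_nonneg _) (by positivity))
    have h4 : m ^ N * ‖a - b‖ ≤ m ^ N * ‖a - b‖ * m :=
      le_mul_of_one_le_right (by positivity) hm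
    rw [e]
    refine (norm_add_le _ _).trans ?_
    push_cast
    rw [pow_succ]
    nlinarith

/-- Product formula. -/
lemma chernoff (h1 : ‖(1 : A)‖ ≤ 1) (G : ℝ → A) (Q : A) (h0 : G 0 = 1) (hG : HasDerivAt G Q 0)
    (t : ℝ) : Tendsto (fun N : ℕ => G (t / N) ^ N) atTop (𝓝 (exp (t • Q))) := by
  have hF : HasDerivAt (fun u : ℝ => exp (u • Q)) Q 0 := by
    simpa using hasDerivAt_exp_smul_const (𝕂 := ℝ) Q 0
  have hlim : Tendsto (fun N : ℕ => t / (N : ℝ)) atTop (𝓝 0) :=
    tendsto_const_div_atTop_nhds_zero_nat t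
  have key : ∀ (H : ℝ → A), H 0 = 1 → HasDerivAt H Q 0 → ∀ η : ℝ, 0 < η →
      ∀ᶠ N : ℕ in atTop, ‖H (t / N) - 1 - (t / N) • Q‖ ≤ η * |t / N| := by
    intro H hH0 hH η hη
    have := (hasDerivAt_iff_isLittleO_nhds_zero.1 hH).bound hη
    have h2 := hlim.eventually this
    filter_upwards [h2] with N hN
    rw [zero_add, hH0, Real.norm_eq_abs (t / N)] at hN
    exact hN
  set K : ℝ := ‖Q‖ + 1 with hK
  have hK0 : 0 < K := by positivity
  have bd : ∀ (H : ℝ → A), H 0 = 1 → HasDerivAt H Q 0 →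
      ∀ᶠ N : ℕ in atTop, ‖H (t / N)‖ ≤ 1 + K * |t / N| := by
    intro H hH0 hH
    filter_upwards [key H hH0 hH 1 one_pos] with N hN
    have e : H (t / N) = (H (t / N) - 1 - (t / N) • Q) + 1 + (t / N) • Q := by abel
    rw [e]
    refine (norm_add_le _ _).trans ?_
    have := norm_add_le (H (t / N) - 1 - (t / N) • Q) 1
    rw [norm_smul, Real.norm_eq_abs]
    rw [hK]
    nlinarith
  rw [Metric.tendsto_atTop]
  intro ε hε
  set M : ℝ := Real.exp (K * |t|) * (|t| + 1) with hM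
  have hM0 : 0 < M := by positivity
  have hη : 0 < ε / (4 * M) := by positivity
  have hF0 : (fun u : ℝ => exp (u • Q)) 0 = 1 := by simp
  have ev := ((key G h0 hG _ hη).and (key _ hF0 hF _ hη)).and
    (((bd G h0 hG).and (bd _ hF0 hF)).and (eventually_ge_atTop 1))
  obtain ⟨N0, hN0⟩ := eventually_atTop.1 ev
  refine ⟨N0, fun N hN => ?_⟩
  obtain ⟨⟨a1, a2⟩, ⟨a3, a4⟩, a5⟩ := hN0 N hN
  have hNpos : (0 : ℝ) < N := by exact_mod_cast a5
  have e1 : exp (t • Q) = exp ((t / N) • Q) ^ N := by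
    rw [exp_smul_pow]; congr 2; field_simp
  have habs : |t / N| = |t| / N := by rw [abs_div, abs_of_pos hNpos]
  have hm1 : 1 ≤ 1 + K * |t / N| := by have : 0 ≤ K * |t / N| := by positivity
                                       linarith
  have h5 := norm_pow_sub_pow_le h1 hm1 a3 a4 N
  have h6 : (1 + K * |t / N|) ^ N ≤ Real.exp (K * |t|) := by
    have : 1 + K * |t / N| ≤ Real.exp (K * |t / N|) := by
      have := Real.add_one_le_exp (K * |t / N|); linarith
    refine (pow_le_pow_left₀ (by positivity) this N).trans ?_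
    rw [← Real.exp_nat_mul, habs]
    apply le_of_eq; congr 1; field_simp
  have h7 : ‖G (t / N) - exp ((t / N) • Q)‖ ≤ 2 * (ε / (4 * M)) * (|t| / N) := by
    have e : G (t / N) - exp ((t / N) • Q) = (G (t / N) - 1 - (t / N) • Q) -
      (exp ((t / N) • Q) - 1 - (t / N) • Q) := by abel
    rw [e]
    refine (norm_sub_le _ _).trans ?_
    rw [habs] at a1 a2
    linarith
  rw [dist_eq_norm, e1]
  refine lt_of_le_of_lt h5 ?_
  have h8 : (N : ℝ) * (1 + K * |t / N|) ^ N * ‖G (t / N) - exp ((t / N) • Q)‖ ≤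
      N * Real.exp (K * |t|) * (2 * (ε / (4 * M)) * (|t| / N)) :=
    mul_le_mul (mul_le_mul_of_nonneg_left h6 hNpos.le) h7 (norm_nonneg _) (by positivity)
  refine lt_of_le_of_lt h8 ?_
  have e2 : (N : ℝ) * Real.exp (K * |t|) * (2 * (ε / (4 * M)) * (|t| / N)) =
      ε / 2 * (|t| / (|t| + 1)) := by
    rw [hM]; field_simp; ring
  rw [e2]
  have : |t| / (|t| + 1) ≤ 1 := by
    rw [div_le_one (by positivity)]; linarith
  nlinarith

end Alg

section Op
variable {E F : Type*} [NormedAddCommGroup E] [NormedSpace ℝ E] [CompleteSpace E]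
  [NormedAddCommGroup F] [NormedSpace ℝ F] [CompleteSpace F]

lemma hasSum_exp_apply (A : E →L[ℝ] E) (t : ℝ) (x : E) :
    HasSum (fun n : ℕ => (t ^ n / (n.factorial : ℝ)) • (A ^ n) x) (exp (t • A) x) := by
  have hs := exp_series_hasSum_exp' (𝕂 := ℝ) (t • A)
  have := (ContinuousLinearMap.apply ℝ E x).hasSum hs
  rw [ContinuousLinearMap.apply_apply] at this
  convert this using 2 with n
  simp only [ContinuousLinearMap.apply_apply, smul_pow, smul_apply, smul_smul]
  congr 1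
  ring

lemma exp_intertwine (A : E →L[ℝ] E) (B : F →L[ℝ] F) (J : E →L[ℝ] F)
    (h : ∀ x, J (A x) = B (J x)) (t : ℝ) (x : E) : J (exp (t • A) x) = exp (t • B) (J x) := by
  have hp : ∀ (n : ℕ) (y : E), J ((A ^ n) y) = (B ^ n) (J y) := by
    intro n
    induction n with
    | zero => intro y; simp
    | succ n ih =>
      intro y
      rw [pow_succ, pow_succ, mul_apply_eq_comp, mul_apply_eq_comp, ih, h]
  have h1 := J.hasSum (hasSum_exp_apply A t x)
  have h2 := hasSum_exp_apply B t (J x)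
  refine h1.unique ?_
  convert h2 using 2 with n
  rw [map_smul, hp]

lemma exp_eigen (A : E →L[ℝ] E) (x : E) (c : ℝ) (h : A x = c • x) (t : ℝ) :
    exp (t • A) x = Real.exp (t * c) • x := by
  have hp : ∀ n : ℕ, (A ^ n) x = c ^ n • x := by
    intro n
    induction n with
    | zero => simp
    | succ n ih => rw [pow_succ', mul_apply_eq_comp, ih, map_smul, h, smul_smul, pow_succ]
  have h1 := hasSum_exp_apply A t x
  have hr : HasSum (fun n : ℕ => ((n.factorial : ℝ)⁻¹) • (t * c) ^ n) (Real.exp (t * c)) := by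
    rw [Real.exp_eq_exp_ℝ]
    exact exp_series_hasSum_exp' (𝕂 := ℝ) (t * c)
  have h2 := hr.smul_const x
  refine h1.unique ?_
  convert h2 using 2 with n
  rw [hp, smul_smul, smul_eq_mul, mul_pow]
  congr 1
  ring

end Op

end H380NV
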