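import Pool.Agent.H380Z.NV.Low
import Pool.Agent.H380Z.NV.Defs

set_option autoImplicit false
set_option linter.unusedSectionVars false

open Finset Filter Topology NormedSpace H380NV

noncomputable section

namespace Pool.Agent.H380Z.NV

section
variable {V : Type} [Fintype V] [DecidableEq V] (G : SimpleGraph V) [DecidableRel G.Adj]
  (q : ℕ) (θ : ℝ)

lemma gen_eq (f : (V → Fin q) → ℝ) : gen G q θ f = Qg G θ id f := by
  funext x
  rw [Qg_apply]
  refine sum_congr rfl fun v _ => ?_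
  congr 1
  rw [Fintype.sum_sum_type, add_comm]
  congr 1
  · rw [SimpleGraph.neighborFinset_eq_filter, sum_filter, sum_div, mul_sum]
    refine sum_congr rfl fun w _ => ?_
    simp only [rate, Sum.elim_inl, mv]
    split_ifs
    · ring
    · simp
  · rw [sum_div, mul_sum]
    refine sum_congr rfl fun a _ => ?_
    simp only [rate, Sum.elim_inr, mv, Fintype.card_fin, id]
    ring

lemma iter_eq (m : ℕ) : ∀ f : (V → Fin q) → ℝ, (gen G q θ)^[m] f = (Qg G θ id ^ m) f := by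
  induction m with
  | zero => intro f; rfl
  | succ m ih => intro f; rw [Function.iterate_succ_apply, ih, gen_eq, pow_succ, mul_apply_eq_comp]

lemma semi_eq (t : ℝ) (f : (V → Fin q) → ℝ) (x : V → Fin q) :
    semi G q θ t f x = Pt G θ id t f x := by
  have h := hasSum_exp_apply (Qg G θ (id : Fin q → Fin q)) t f
  have h2 := Pi.hasSum.1 h x
  simp only [semi, iter_eq]
  exact h2.tsum_eq

lemma tmix_eq (μ : (V → Fin q) → ℝ) (x : V → Fin q) (ε : ℝ) :
    tmix G q θ μ x ε = tm G θ μ x ε := by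
  have : ∀ t, prob G q θ t x = nu G θ t x := fun t => by
    funext y; exact semi_eq G q θ t _ x
  simp only [tmix, tm, this]
  rfl

lemma stat_of {μ : (V → Fin q) → ℝ} (h : IsStationary G q θ μ) : Stat G θ μ :=
  ⟨h.1, h.2.1, fun f => by rw [← gen_eq]; exact h.2.2 f⟩

lemma good_of {D : ℝ} (h0 : 0 < θ) (h1 : θ < 1) (hc : G.Connected) (h2 : 2 ≤ Fintype.card V)
    (hD : ∀ v, (G.degree v : ℝ) ≤ D) : Good G θ D := by
  refine ⟨h0, h1, fun v => ?_, hD⟩
  have : Nontrivial V := Fintype.one_lt_card_iff_nontrivial.1 h2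
  exact hc.preconnected.degree_pos_of_nontrivial v

end

theorem window_unif (q : ℕ) (hq : 2 ≤ q) {θ : ℝ} (h0 : 0 < θ) (h1 : θ < 1) {D : ℝ} (hD : 0 ≤ D)
    {ε₁ ε₂ : ℝ} (a0 : 0 < ε₁) (a1 : ε₁ < 1) (b0 : 0 < ε₂) (b1 : ε₂ < 1) :
    ∃ C : ℝ, ∀ (V : Type) [Fintype V] [DecidableEq V] (G : SimpleGraph V) [DecidableRel G.Adj],
      G.Connected → 2 ≤ Fintype.card V → (∀ v, (G.degree v : ℝ) ≤ D) →
      ∀ μ, IsStationary G q θ μ → ∀ x, |tmix G q θ μ x ε₁ - tmix G q θ μ x ε₂| ≤ C := by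
  obtain ⟨s, hs, hb⟩ := exists_s h0 D (η := (1 - ε₂) * ε₁) (mul_pos (by linarith) a0)
  obtain ⟨s', hs', hb'⟩ := exists_s h0 D (η := (1 - ε₁) * ε₂) (mul_pos (by linarith) b0)
  refine ⟨s + s', fun V _ _ G _ hc h2 hd μ hμ x => ?_⟩
  have : Nonempty (Fin q) := ⟨⟨0, by omega⟩⟩
  have H := good_of G θ h0 h1 hc h2 hd
  have M := stat_of G q θ hμ
  have w1 := tm_window H hD M x b0 b1 hs hb
  have w2 := tm_window H hD M x a0 a1 hs' hb'
  rw [tmix_eq, tmix_eq, abs_le]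
  constructor <;> linarith

theorem lower_unif (q : ℕ) (hq : 2 ≤ q) {θ : ℝ} (h0 : 0 < θ) (h1 : θ < 1) {D : ℝ} (hD : 0 < D)
    {ε : ℝ} (a0 : 0 < ε) (a1 : ε < 1) :
    ∃ C : ℝ, ∀ (V : Type) [Fintype V] [DecidableEq V] (G : SimpleGraph V) [DecidableRel G.Adj],
      G.Connected → 2 ≤ Fintype.card V → (∀ v, (G.degree v : ℝ) ≤ D) →
      ∀ μ, IsStationary G q θ μ → ∀ x,
        Real.log (Fintype.card V) / 4 - C ≤ tmix G q θ μ x ε := by
  refine ⟨Real.log (2 * Fintype.card (Fin q) * D * Real.sqrt (Cv θ D) / (1 - ε)) / 2,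
    fun V _ _ G _ hc h2 hd μ hμ x => ?_⟩
  have : Nonempty (Fin q) := ⟨⟨0, by omega⟩⟩
  have : Nonempty V := hc.nonempty
  rw [tmix_eq]
  exact tm_lower (good_of G θ h0 h1 hc h2 hd) hD (by simpa using hq) (stat_of G q θ hμ) x a0 a1

theorem cutoff (q : ℕ) (hq : 2 ≤ q) (θ : ℝ) (h0 : 0 < θ) (h1 : θ < 1)
    (V : ℕ → Type) [∀ n, Fintype (V n)] [∀ n, DecidableEq (V n)]
    (hV : Tendsto (fun n => Fintype.card (V n)) atTop atTop)
    (G : ∀ n, SimpleGraph (V n)) [∀ n, DecidableRel (G n).Adj]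
    (hc : ∀ᶠ n in atTop, (G n).Connected) (hd : ∃ D : ℕ, ∀ n v, (G n).degree v ≤ D)
    (μ : ∀ n, (V n → Fin q) → ℝ) (hμ : ∀ᶠ n in atTop, IsStationary (G n) q θ (μ n))
    (x : ∀ n, V n → Fin q) :
    ∃ T : ℕ → ℝ, Tendsto T atTop atTop ∧ ∀ ε : ℝ, 0 < ε → ε < 1 →
      Tendsto (fun n => tmix (G n) q θ (μ n) (x n) ε / T n) atTop (𝓝 1) := by
  obtain ⟨D, hD⟩ := hd
  have hD' : ∀ n v, ((G n).degree v : ℝ) ≤ (D : ℝ) + 1 := fun n v => by
    have : ((G n).degree v : ℝ) ≤ D := by exact_mod_cast hD n v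
    linarith
  have ev := (hc.and hμ).and (hV.eventually (eventually_ge_atTop 2))
  obtain ⟨C0, hC0⟩ := lower_unif q hq h0 h1 (D := (D : ℝ) + 1) (by positivity) (ε := 1 / 2)
    (by norm_num) (by norm_num)
  have hT : Tendsto (fun n => tmix (G n) q θ (μ n) (x n) (1 / 2)) atTop atTop := by
    have l1 : Tendsto (fun n => Real.log (Fintype.card (V n)) / 4 - C0) atTop atTop := by
      refine tendsto_atTop_add_const_right _ (-C0) (Tendsto.atTop_div_const (by norm_num) ?_)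
      exact Real.tendsto_log_atTop.comp (tendsto_natCast_atTop_atTop.comp hV)
    refine tendsto_atTop_mono' _ ?_ l1
    filter_upwards [ev] with n hn
    exact hC0 (V n) (G n) hn.1.1 hn.2 (hD' n) (μ n) hn.1.2 (x n)
  refine ⟨_, hT, fun ε e0 e1 => ?_⟩
  obtain ⟨C, hC⟩ := window_unif q hq h0 h1 (D := (D : ℝ) + 1) (by positivity) e0 e1
    (ε₂ := 1 / 2) (by norm_num) (by norm_num)
  have l2 : Tendsto (fun n => C / tmix (G n) q θ (μ n) (x n) (1 / 2)) atTop (𝓝 0) :=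
    hT.const_div_atTop C
  rw [tendsto_iff_dist_tendsto_zero]
  refine squeeze_zero' (Eventually.of_forall fun _ => dist_nonneg) ?_ l2
  filter_upwards [ev, hT.eventually (eventually_gt_atTop 0)] with n hn hp
  have := hC (V n) (G n) hn.1.1 hn.2 (hD' n) (μ n) hn.1.2 (x n)
  rw [Real.dist_eq, div_sub_one hp.ne', abs_div, abs_of_pos hp]
  exact div_le_div_of_nonneg_right this hp.le

end Pool.Agent.H380Z.NV
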