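import Pool.Agent.H380Z.NV.Mix

set_option autoImplicit false
set_option linter.unusedSectionVars false

open Finset Filter Topology NormedSpace

noncomputable section

namespace H380NV

variable {V α : Type} [Fintype V] [DecidableEq V] [Fintype α] [DecidableEq α] [Nonempty α]
variable {G : SimpleGraph V} [DecidableRel G.Adj] {θ D : ℝ}

/-- Centred indicator of a colour. -/
def ci (a0 a : α) : ℝ := (if a = a0 then 1 else 0) - 1 / Fintype.card α

lemma ci_sum (a0 : α) : ∑ a, ci a0 a = 0 := by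
  have h2 : (Fintype.card α : ℝ) ≠ 0 := by have := Fintype.card_pos (α := α); positivity
  simp only [ci, sum_sub_distrib, sum_ite_eq', mem_univ, if_true, sum_const, card_univ,
    nsmul_eq_mul]
  field_simp
  ring

lemma ci_sq (a0 a : α) : ci a0 a ^ 2 ≤ 1 := by
  have h2 : (1 : ℝ) ≤ Fintype.card α := by exact_mod_cast Fintype.card_pos (α := α)
  have h3 : 0 < 1 / (Fintype.card α : ℝ) := by positivity
  have h4 : 1 / (Fintype.card α : ℝ) ≤ 1 := by rw [div_le_one (by linarith)]; exact h2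
  unfold ci
  split_ifs <;> nlinarith

def JL (G : SimpleGraph V) [DecidableRel G.Adj] (a0 : α) : (V → ℝ) →ₗ[ℝ] ((V → α) → ℝ) where
  toFun φ := fun x => ∑ v, G.degree v * φ v * ci a0 (x v)
  map_add' f g := by funext x; simp only [Pi.add_apply, mul_add, add_mul, sum_add_distrib]
  map_smul' a f := by
    funext x
    simp only [Pi.smul_apply, smul_eq_mul, RingHom.id_apply, mul_sum]
    exact sum_congr rfl fun z _ => by ring

def AL (G : SimpleGraph V) [DecidableRel G.Adj] (θ : ℝ) : (V → ℝ) →ₗ[ℝ] (V → ℝ) where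
  toFun φ := fun w => -φ w + (1 - θ) / G.degree w * ∑ v, if G.Adj w v then φ v else 0
  map_add' f g := by
    funext w
    have : ∀ v, (if G.Adj w v then f v + g v else 0) =
        (if G.Adj w v then f v else 0) + (if G.Adj w v then g v else 0) := fun v => by
      split_ifs <;> simp
    simp only [Pi.add_apply, this, sum_add_distrib]; ring
  map_smul' a f := by
    funext w
    have : ∀ v, (if G.Adj w v then a * f v else 0) = a * (if G.Adj w v then f v else 0) :=
      fun v => by split_ifs <;> simp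
    simp only [Pi.smul_apply, smul_eq_mul, RingHom.id_apply, this, ← mul_sum]; ring

lemma JA (H : Good G θ D) (a0 : α) (φ : V → ℝ) :
    JL G a0 (AL G θ φ) = Qg G θ id (JL G a0 φ) := by
  funext x
  have e1 : ∀ v z, JL G a0 φ (mv id v z x) = JL G a0 φ x - G.degree v * φ v * ci a0 (x v) +
      G.degree v * φ v * ci a0 (Sum.elim x id z) := by
    intro v z
    show ∑ w, (G.degree w : ℝ) * φ w * ci a0 (mv id v z x w) =
      ∑ w, (G.degree w : ℝ) * φ w * ci a0 (x w) - _ + _
    rw [← Finset.add_sum_erase _ _ (mem_univ v), ← Finset.add_sum_erase _ _ (mem_univ v)]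
    have : ∑ w ∈ univ.erase v, (G.degree w : ℝ) * φ w * ci a0 (mv id v z x w) =
        ∑ w ∈ univ.erase v, (G.degree w : ℝ) * φ w * ci a0 (x w) :=
      sum_congr rfl fun w hw => by rw [mv, Function.update_of_ne (ne_of_mem_erase hw)]
    rw [this, mv, Function.update_self]
    ring
  have e2 : ∀ v, ∑ z, rate G θ v z * JL G a0 φ (mv id v z x) - JL G a0 φ x =
      (1 - θ) * (∑ w, if G.Adj v w then φ v * ci a0 (x w) else 0) -
        G.degree v * φ v * ci a0 (x v) := by
    intro v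
    have h1 : (G.degree v : ℝ) ≠ 0 := by have := H.d1 v; positivity
    simp only [e1, mul_add, sum_add_distrib, ← sum_mul, rate_sum H]
    rw [Fintype.sum_sum_type, mul_sum]
    have t1 : ∑ w, rate G θ v (Sum.inl w : V ⊕ α) *
        (G.degree v * φ v * ci a0 (Sum.elim x id (Sum.inl w : V ⊕ α))) =
        ∑ w, (1 - θ) * (if G.Adj v w then φ v * ci a0 (x w) else 0) := by
      refine sum_congr rfl fun w _ => ?_
      by_cases a1 : G.Adj v w
      · simp only [rate, Sum.elim_inl, if_pos a1]; field_simp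
      · simp [rate, a1]
    have t2 : ∑ a : α, rate G θ v (Sum.inr a : V ⊕ α) *
        (G.degree v * φ v * ci a0 (Sum.elim x id (Sum.inr a : V ⊕ α))) = 0 := by
      simp only [rate, Sum.elim_inr, id, ← mul_sum, ci_sum, mul_zero]
    rw [t1, t2]
    ring
  rw [Qg_apply]
  simp only [e2, sum_sub_distrib, ← mul_sum]
  rw [sum_comm]
  show ∑ w, (G.degree w : ℝ) * (-φ w + (1 - θ) / G.degree w * ∑ v, if G.Adj w v then φ v else 0) *
    ci a0 (x w) = _
  rw [mul_sum, ← sum_sub_distrib]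
  refine sum_congr rfl fun w _ => ?_
  have h1 : (G.degree w : ℝ) ≠ 0 := by have := H.d1 w; positivity
  have : ∑ v, (if G.Adj v w then φ v * ci a0 (x w) else 0) =
      (∑ v, if G.Adj w v then φ v else 0) * ci a0 (x w) := by
    rw [sum_mul]
    refine sum_congr rfl fun v _ => ?_
    simp only [G.adj_comm v w]
    split_ifs <;> simp
  rw [this]
  field_simp
  ring

lemma avg_le (H : Good G θ D) (φ : V → ℝ) {m : ℝ} (hm : ∀ v, |φ v| ≤ m) (w : V) :
    |(1 - θ) / G.degree w * ∑ v, if G.Adj w v then φ v else 0| ≤ (1 - θ) * m := by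
  have h1 : (0 : ℝ) < G.degree w := by have := H.d1 w; positivity
  have h2 : 0 < 1 - θ := by linarith [H.t1]
  have h3 : |∑ v, if G.Adj w v then φ v else 0| ≤ G.degree w * m := by
    rw [← sum_adj]
    refine (abs_sum_le_sum_abs _ _).trans (sum_le_sum fun v _ => ?_)
    split_ifs
    · exact hm v
    · simp
  rw [abs_mul, abs_of_pos (div_pos h2 h1)]
  refine (mul_le_mul_of_nonneg_left h3 (div_pos h2 h1).le).trans (le_of_eq ?_)
  field_simp

lemma AL_norm (H : Good G θ D) : ‖LinearMap.toContinuousLinearMap (AL G θ)‖ ≤ 2 := by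
  refine ContinuousLinearMap.opNorm_le_bound _ (by norm_num) fun φ => ?_
  refine (pi_norm_le_iff_of_nonneg (by positivity)).2 fun w => ?_
  have hm : ∀ v, |φ v| ≤ ‖φ‖ := fun v => by simpa using norm_le_pi_norm φ v
  have h1 := avg_le H φ hm w
  show |-φ w + (1 - θ) / G.degree w * ∑ v, if G.Adj w v then φ v else 0| ≤ _
  refine (abs_add_le _ _).trans ?_
  rw [abs_neg]
  have := hm w
  have := H.t0
  nlinarith [norm_nonneg φ]

lemma mu_J (H : Good G θ D) {μ : (V → α) → ℝ} (M : Stat G θ μ) (a0 : α) (φ : V → ℝ) :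
    ∑ x, μ x * JL G a0 φ x = 0 := by
  set m : V → ℝ := fun v => ∑ x, μ x * ci a0 (x v) with hm
  have e : ∀ ψ : V → ℝ, ∑ x, μ x * JL G a0 ψ x = ∑ v, G.degree v * ψ v * m v := by
    intro ψ
    show ∑ x, μ x * ∑ v, (G.degree v : ℝ) * ψ v * ci a0 (x v) = _
    simp only [hm, mul_sum]
    rw [sum_comm]
    exact sum_congr rfl fun v _ => sum_congr rfl fun x _ => by ring
  set σ : V → ℝ := fun v => if 0 ≤ m v then 1 else -1 with hσ
  have h1 := M.inv (JL G a0 σ)
  rw [← JA H, e] at h1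
  have hσ1 : ∀ v, |σ v| ≤ 1 := fun v => by simp only [hσ]; split_ifs <;> simp
  have h2 : ∀ w, (G.degree w : ℝ) * AL G θ σ w * m w ≤ -(θ * |m w|) := by
    intro w
    have a1 := avg_le H σ hσ1 w
    have a2 : σ w * m w = |m w| := by
      simp only [hσ]; split_ifs with h
      · rw [abs_of_nonneg h, one_mul]
      · rw [abs_of_neg (not_le.1 h)]; ring
    have a3 : AL G θ σ w * m w ≤ -(θ * |m w|) := by
      show (-σ w + (1 - θ) / G.degree w * ∑ v, if G.Adj w v then σ v else 0) * m w ≤ _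
      have a4 := le_abs_self (((1 - θ) / G.degree w * ∑ v, if G.Adj w v then σ v else 0) * m w)
      rw [abs_mul] at a4
      have a5 := mul_le_mul_of_nonneg_right a1 (abs_nonneg (m w))
      nlinarith
    have a6 : (1 : ℝ) ≤ G.degree w := by exact_mod_cast H.d1 w
    have a7 : 0 ≤ θ * |m w| := mul_nonneg H.t0.le (abs_nonneg _)
    rw [mul_assoc]
    nlinarith
  have h3 : ∑ w, θ * |m w| ≤ 0 := by
    have := sum_le_sum fun w (_ : w ∈ (univ : Finset V)) => h2 w
    rw [h1, sum_neg_distrib] at this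
    linarith
  have h4 : ∀ w, m w = 0 := by
    intro w
    have := (sum_eq_zero_iff_of_nonneg fun w (_ : w ∈ (univ : Finset V)) =>
      mul_nonneg H.t0.le (abs_nonneg (m w))).1
      (le_antisymm h3 (sum_nonneg fun w _ => mul_nonneg H.t0.le (abs_nonneg _))) w (mem_univ _)
    rcases mul_eq_zero.1 this with h | h
    · exact absurd h H.t0.ne'
    · exact abs_eq_zero.1 h
  simp [e, h4]

theorem lower (H : Good G θ D) (hD : 0 ≤ D) (hq : 2 ≤ Fintype.card α) {μ : (V → α) → ℝ}
    (M : Stat G θ μ) {t : ℝ} (ht : 0 ≤ t) (x : V → α) :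
    (1 - tv (nu G θ t x) μ) * (Fintype.card V / Fintype.card α) ≤
      2 * Real.sqrt (Cv θ D * (Fintype.card V * (D * Real.exp (2 * t)) ^ 2)) := by
  obtain ⟨a0⟩ := ‹Nonempty α›
  set A := LinearMap.toContinuousLinearMap (AL G θ) with hA
  set φ0 : V → ℝ := fun v => if x v = a0 then 1 else -1 with hφ0
  set φ : V → ℝ := exp ((-t) • A) φ0 with hφ
  have n0 : ‖φ0‖ ≤ 1 := (pi_norm_le_iff_of_nonneg one_pos.le).2 fun v => by
    simp only [hφ0]; split_ifs <;> simp
  have n1 : ‖φ‖ ≤ Real.exp (2 * t) := by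
    have a1 := norm_exp_le (A := (V → ℝ) →L[ℝ] (V → ℝ)) ContinuousLinearMap.norm_id_le ((-t) • A)
    have a2 : ‖(-t) • A‖ ≤ 2 * t := by
      rw [norm_smul, Real.norm_eq_abs, abs_neg, abs_of_nonneg ht, mul_comm]
      exact mul_le_mul_of_nonneg_right (AL_norm H) ht
    have a3 := (exp ((-t) • A)).le_opNorm φ0
    have a4 := Real.exp_le_exp.2 a2
    have := norm_nonneg (exp ((-t) • A))
    nlinarith
  have e1 : exp (t • A) φ = φ0 := by
    have h : exp (t • A) * exp ((-t) • A) = 1 := by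
      have := exp_smul_add A t (-t)
      rw [add_neg_cancel, zero_smul, exp_zero] at this
      exact this.symm
    rw [hφ, ← mul_apply_eq_comp, h]
    rfl
  have e2 : Pt G θ id t (JL G a0 φ) = JL G a0 φ0 := by
    have := exp_intertwine A (Qg G θ (id : α → α)) (LinearMap.toContinuousLinearMap (JL G a0))
      (fun ψ => JA H a0 ψ) t φ
    rw [e1] at this
    exact this.symm
  have k := key H hD M ht x (fun _ : V => (1 : ℝ)) (fun _ => one_pos.le) (fun v => {v})
    one_pos.le (fun u => by simp) (fun v y => G.degree v * φ v * ci a0 (y v))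
    (fun v y y' h => by rw [h v (mem_singleton_self v)]) (m := (D * Real.exp (2 * t)) ^ 2)
    (fun v y => by
      have b1 : |φ v| ≤ Real.exp (2 * t) := le_trans (by simpa using norm_le_pi_norm φ v) n1
      have b2 := ci_sq a0 (y v)
      have b3 : ((G.degree v : ℝ) * φ v) ^ 2 ≤ (D * Real.exp (2 * t)) ^ 2 := by
        rw [← sq_abs, abs_mul, abs_of_nonneg (Nat.cast_nonneg _)]
        exact pow_le_pow_left₀ (by positivity) (mul_le_mul (H.dD v) b1 (abs_nonneg _) hD) 2
      rw [mul_pow]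
      nlinarith [sq_nonneg ((G.degree v : ℝ) * φ v)])
  simp only [one_mul, sum_const, card_univ, nsmul_eq_mul, mul_one] at k
  have e3 : (fun y : V → α => ∑ v, (G.degree v : ℝ) * φ v * ci a0 (y v)) = JL G a0 φ := rfl
  have e4 := mu_J H M a0 φ
  rw [e3, e2] at k
  have e5 : ∑ y, μ y * ∑ v, (G.degree v : ℝ) * φ v * ci a0 (y v) = 0 := e4
  rw [e5, sub_zero] at k
  have q2 : (2 : ℝ) ≤ Fintype.card α := by exact_mod_cast hq
  have e6 : (Fintype.card V : ℝ) / Fintype.card α ≤ JL G a0 φ0 x := by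
    have : (Fintype.card V : ℝ) / Fintype.card α = ∑ _v : V, 1 / (Fintype.card α : ℝ) := by
      simp [div_eq_mul_inv]
    rw [this]
    refine sum_le_sum fun v _ => ?_
    have a6 : (1 : ℝ) ≤ G.degree v := by exact_mod_cast H.d1 v
    have a7 : 0 < 1 / (Fintype.card α : ℝ) := by positivity
    have a8 : 1 / (Fintype.card α : ℝ) ≤ 1 / 2 := one_div_le_one_div_of_le (by norm_num) q2
    simp only [hφ0, ci]
    split_ifs <;> nlinarith
  by_cases hc : 0 ≤ 1 - tv (nu G θ t x) μ
  · exact (mul_le_mul_of_nonneg_left e6 hc).trans k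
  · refine le_trans ?_ (by positivity : (0 : ℝ) ≤ _)
    exact mul_nonpos_of_nonpos_of_nonneg (not_le.1 hc).le (by positivity)

/-- Mixing time from `x`. -/
def tm (G : SimpleGraph V) [DecidableRel G.Adj] (θ : ℝ) (μ : (V → α) → ℝ) (x : V → α) (ε : ℝ) : ℝ :=
  sInf {t : ℝ | 0 ≤ t ∧ tv (nu G θ t x) μ ≤ ε}

lemma tm_nonempty (H : Good G θ D) {μ : (V → α) → ℝ} (M : Stat G θ μ) (x : V → α) {ε : ℝ}
    (hε : 0 < ε) : {t : ℝ | 0 ≤ t ∧ tv (nu G θ t x) μ ≤ ε}.Nonempty :=
  ((eventually_ge_atTop 0).and ((tv_tendsto H M x).eventually (ge_mem_nhds hε))).exists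

lemma exists_s (h0 : 0 < θ) (D : ℝ) {η : ℝ} (hη : 0 < η) :
    ∃ s : ℝ, 0 ≤ s ∧ 2 * Real.sqrt (D * Real.exp (-(θ * s)) * Cv θ D) ≤ η := by
  have h1 : Tendsto (fun s : ℝ => 2 * Real.sqrt (D * Real.exp (-(θ * s)) * Cv θ D)) atTop
      (𝓝 (2 * Real.sqrt (D * 0 * Cv θ D))) := by
    refine Tendsto.const_mul _ (Tendsto.sqrt (Tendsto.mul_const _ (Tendsto.const_mul _ ?_)))
    exact Real.tendsto_exp_neg_atTop_nhds_zero.comp (tendsto_id.const_mul_atTop h0)
  simp only [mul_zero, zero_mul, Real.sqrt_zero] at h1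
  exact ((eventually_ge_atTop 0).and (h1.eventually (ge_mem_nhds hη))).exists

lemma tm_window (H : Good G θ D) (hD : 0 ≤ D) {μ : (V → α) → ℝ} (M : Stat G θ μ) (x : V → α)
    {ε₁ ε₂ s : ℝ} (h2 : 0 < ε₂) (h3 : ε₂ < 1) (hs : 0 ≤ s)
    (hb : 2 * Real.sqrt (D * Real.exp (-(θ * s)) * Cv θ D) ≤ (1 - ε₂) * ε₁) :
    tm G θ μ x ε₁ ≤ tm G θ μ x ε₂ + s := by
  rw [← sub_le_iff_le_add]
  refine le_csInf (tm_nonempty H M x h2) fun t ht => ?_
  rw [sub_le_iff_le_add]
  refine csInf_le ⟨0, fun u hu => hu.1⟩ ⟨add_nonneg ht.1 hs, ?_⟩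
  have w := (window H hD M ht.1 hs x).trans hb
  have t0 : 0 ≤ tv (nu G θ (t + s) x) μ := by unfold tv; positivity
  have : (1 - ε₂) * tv (nu G θ (t + s) x) μ ≤ (1 - ε₂) * ε₁ :=
    (mul_le_mul_of_nonneg_right (by linarith [ht.2]) t0).trans w
  exact le_of_mul_le_mul_left this (by linarith)

lemma tm_lower (H : Good G θ D) (hD : 0 < D) (hq : 2 ≤ Fintype.card α) [Nonempty V]
    {μ : (V → α) → ℝ} (M : Stat G θ μ) (x : V → α) {ε : ℝ} (h2 : 0 < ε) (h3 : ε < 1) :
    Real.log (Fintype.card V) / 4 -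
      Real.log (2 * Fintype.card α * D * Real.sqrt (Cv θ D) / (1 - ε)) / 2 ≤ tm G θ μ x ε := by
  refine le_csInf (tm_nonempty H M x h2) fun t ht => ?_
  have l := lower H hD.le hq M ht.1 x
  have hn : (0 : ℝ) < Fintype.card V := by exact_mod_cast Fintype.card_pos
  have hq' : (0 : ℝ) < Fintype.card α := by exact_mod_cast Fintype.card_pos
  have hC : 0 < Cv θ D := by have := H.t0; unfold Cv; positivity
  have hε : 0 < 1 - ε := by linarith
  set r := Real.sqrt (Fintype.card V) with hr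
  have hr0 : 0 < r := Real.sqrt_pos.2 hn
  have hr2 : (Fintype.card V : ℝ) = r * r := (Real.mul_self_sqrt hn.le).symm
  have e1 : Real.sqrt (Cv θ D * (Fintype.card V * (D * Real.exp (2 * t)) ^ 2)) =
      Real.sqrt (Cv θ D) * (r * (D * Real.exp (2 * t))) := by
    rw [Real.sqrt_mul hC.le, Real.sqrt_mul hn.le, Real.sqrt_sq (by positivity)]
  rw [e1] at l
  have l2 : (1 - ε) * (Fintype.card V / Fintype.card α) ≤
      2 * (Real.sqrt (Cv θ D) * (r * (D * Real.exp (2 * t)))) :=
    (mul_le_mul_of_nonneg_right (by linarith [ht.2]) (by positivity)).trans l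
  set K := 2 * Fintype.card α * D * Real.sqrt (Cv θ D) / (1 - ε) with hK
  have hK0 : 0 < K := by have := Real.sqrt_pos.2 hC; positivity
  have l3 : r ≤ K * Real.exp (2 * t) := by
    rw [hr2] at l2
    have a1 : r * r ≤ (K * Real.exp (2 * t)) * r := by
      have : r * r = ((1 - ε) * (r * r / Fintype.card α)) * (Fintype.card α / (1 - ε)) := by
        field_simp
      rw [this]
      refine (mul_le_mul_of_nonneg_right l2 (by positivity)).trans (le_of_eq ?_)
      rw [hK]; field_simp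
    exact le_of_mul_le_mul_right a1 hr0
  have l4 := Real.log_le_log hr0 l3
  rw [Real.log_mul hK0.ne' (Real.exp_pos _).ne', Real.log_exp, hr, Real.log_sqrt hn.le] at l4
  linarith

end H380NV
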