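import Pool.Agent.H380Z.NV.Cont

set_option autoImplicit false
set_option linter.unusedSectionVars false

open Finset Filter Topology NormedSpace

noncomputable section

namespace H380NV

section Fin
variable {S : Type} [Fintype S]

def tv (ν μ : S → ℝ) : ℝ := (∑ y, |ν y - μ y|) / 2

lemma abs_sum_le_sqrt {l ν h : S → ℝ} (hl0 : ∀ y, 0 ≤ l y) (hl : ∀ y, l y ≤ ν y) (h1 : ∑ y, ν y = 1)
    {W : ℝ} (hW : ∑ y, ν y * h y ^ 2 - (∑ y, ν y * h y) ^ 2 ≤ W) :
    |∑ y, l y * (h y - ∑ z, ν z * h z)| ≤ Real.sqrt W := by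
  set c := ∑ z, ν z * h z with hc
  have n0 : ∀ y, 0 ≤ ν y := fun y => (hl0 y).trans (hl y)
  have a1 : |∑ y, l y * (h y - c)| ≤ ∑ y, ν y * |h y - c| := by
    refine (abs_sum_le_sum_abs _ _).trans (sum_le_sum fun y _ => ?_)
    rw [abs_mul, abs_of_nonneg (hl0 y)]
    exact mul_le_mul_of_nonneg_right (hl y) (abs_nonneg _)
  have a2 := sum_sq_le_sum_mul_sum_of_sq_le_mul (univ : Finset S)
    (r := fun y => ν y * |h y - c|) (f := ν) (g := fun y => ν y * (h y - c) ^ 2)
    (fun y _ => n0 y) (fun y _ => mul_nonneg (n0 y) (sq_nonneg _))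
    (fun y _ => by rw [mul_pow, sq_abs]; apply le_of_eq; ring)
  have a3 : ∑ y, ν y * (h y - c) ^ 2 = ∑ y, ν y * h y ^ 2 - c ^ 2 := by
    have : ∀ y, ν y * (h y - c) ^ 2 = ν y * h y ^ 2 - 2 * c * (ν y * h y) + c ^ 2 * ν y :=
      fun y => by ring
    simp only [this, sum_add_distrib, sum_sub_distrib, ← mul_sum, h1, ← hc]
    ring
  rw [h1, one_mul, a3] at a2
  exact a1.trans (Real.le_sqrt_of_sq_le (a2.trans hW))

lemma overlap {ν μ h : S → ℝ} (n0 : ∀ y, 0 ≤ ν y) (m0 : ∀ y, 0 ≤ μ y) (n1 : ∑ y, ν y = 1)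
    (m1 : ∑ y, μ y = 1) {W : ℝ} (hν : ∑ y, ν y * h y ^ 2 - (∑ y, ν y * h y) ^ 2 ≤ W)
    (hμ : ∑ y, μ y * h y ^ 2 - (∑ y, μ y * h y) ^ 2 ≤ W) :
    (1 - tv ν μ) * (∑ y, ν y * h y - ∑ y, μ y * h y) ≤ 2 * Real.sqrt W := by
  have l0 : ∀ y, 0 ≤ min (ν y) (μ y) := fun y => le_min (n0 y) (m0 y)
  have a1 := abs_sum_le_sqrt l0 (fun y => min_le_left _ _) n1 hν
  have a2 := abs_sum_le_sqrt l0 (fun y => min_le_right _ _) m1 hμ
  have e : ∑ y, min (ν y) (μ y) = 1 - tv ν μ := by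
    have : ∀ y, min (ν y) (μ y) = (ν y + μ y - |ν y - μ y|) / 2 := by
      intro y
      rcases le_total (ν y) (μ y) with h | h
      · rw [min_eq_left h, abs_of_nonpos (by linarith)]; ring
      · rw [min_eq_right h, abs_of_nonneg (by linarith)]; ring
    simp only [this, tv, ← sum_div, sum_sub_distrib, sum_add_distrib, n1, m1]
    ring
  simp only [mul_sub, sum_sub_distrib, ← sum_mul, e] at a1 a2
  have b1 := (abs_le.1 a1).1
  have b2 := (abs_le.1 a2).2
  linarith

lemma tv_eq {ν μ : S → ℝ} (n1 : ∑ y, ν y = 1) (m1 : ∑ y, μ y = 1) :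
    tv ν μ = ∑ y, ν y * (if μ y ≤ ν y then 1 else 0) - ∑ y, μ y * (if μ y ≤ ν y then 1 else 0) := by
  have : ∀ y, |ν y - μ y| = 2 * (ν y * (if μ y ≤ ν y then 1 else 0) -
      μ y * (if μ y ≤ ν y then 1 else 0)) - (ν y - μ y) := by
    intro y
    split_ifs with h
    · rw [abs_of_nonneg (by linarith)]; ring
    · rw [abs_of_nonpos (by linarith)]; ring
  simp only [tv, this, sum_sub_distrib, ← mul_sum, n1, m1]
  ring

end Fin

variable {V α : Type} [Fintype V] [DecidableEq V] [Fintype α] [DecidableEq α] [Nonempty α]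
variable {G : SimpleGraph V} [DecidableRel G.Adj] {θ D : ℝ}

structure Stat (G : SimpleGraph V) [DecidableRel G.Adj] (θ : ℝ) (μ : (V → α) → ℝ) : Prop where
  m0 : ∀ x, 0 ≤ μ x
  m1 : ∑ x, μ x = 1
  inv : ∀ f, ∑ x, μ x * Qg G θ id f x = 0

def nu (G : SimpleGraph V) [DecidableRel G.Adj] (θ : ℝ) (t : ℝ) (x y : V → α) : ℝ :=
  Pt G θ id t (fun z => if z = y then 1 else 0) x

lemma nu_nonneg (H : Good G θ D) {t : ℝ} (ht : 0 ≤ t) (x y : V → α) : 0 ≤ nu G θ t x y := by
  have := Pt_mono H (id : α → α) ht (f := fun _ => 0)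
    (g := fun z => if z = y then 1 else 0) (fun y => by split_ifs <;> norm_num) x
  rwa [Pt_const H] at this

lemma nu_mul (t : ℝ) (x : V → α) (g : (V → α) → ℝ) :
    ∑ y, nu G θ t x y * g y = Pt G θ id t g x := (Pt_eq_sum id t g x).symm

lemma nu_sum (H : Good G θ D) (t : ℝ) (x : V → α) : ∑ y, nu G θ t x y = 1 := by
  have := nu_mul (G := G) (θ := θ) t x (fun _ => 1)
  rw [Pt_const H] at this
  simpa using this

def muL (μ : (V → α) → ℝ) : ((V → α) → ℝ) →ₗ[ℝ] ℝ where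
  toFun f := ∑ x, μ x * f x
  map_add' f g := by simp only [Pi.add_apply, mul_add, sum_add_distrib]
  map_smul' a f := by
    simp only [Pi.smul_apply, smul_eq_mul, RingHom.id_apply, mul_sum]
    exact sum_congr rfl fun z _ => by ring

lemma stat_Pt {μ : (V → α) → ℝ} (M : Stat G θ μ) (t : ℝ) (f : (V → α) → ℝ) :
    ∑ x, μ x * Pt G θ id t f x = ∑ x, μ x * f x := by
  have := exp_intertwine (Qg G θ (id : α → α)) (0 : ℝ →L[ℝ] ℝ)
    (LinearMap.toContinuousLinearMap (muL μ)) (fun f => M.inv f) t f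
  rw [smul_zero, exp_zero] at this
  exact this

lemma osc (H : Good G θ D) {T : ℝ} (hT : 0 ≤ T) (g : (V → α) → ℝ) (x y : V → α) :
    |Pt G θ id T g x - Pt G θ id T g y| ≤
      2 * ‖g‖ * (Fintype.card V * (D * Real.exp (-(θ * T)))) := by
  rw [Pt_law, Pt_law, ← sum_sub_distrib]
  refine (abs_sum_le_sum_abs _ _).trans ?_
  have a1 : ∀ l : V → V ⊕ α, |law G θ T l * g (act id l x) - law G θ T l * g (act id l y)| ≤
      2 * ‖g‖ * ∑ u, law G θ T l * (if u ∈ rng l then 1 else 0) := by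
    intro l
    have l0 := law_nonneg H hT l
    rw [← mul_sub, abs_mul, abs_of_nonneg l0, ← mul_sum, mul_left_comm]
    refine mul_le_mul_of_nonneg_left ?_ l0
    have n0 : ∀ u ∈ (univ : Finset V), (0 : ℝ) ≤ (if u ∈ rng l then 1 else 0) :=
      fun u _ => by split_ifs <;> norm_num
    by_cases hr : ∃ u, u ∈ rng l
    · obtain ⟨u, hu⟩ := hr
      have h1 := single_le_sum n0 (mem_univ u)
      rw [if_pos hu] at h1
      have h2 : |g (act id l x) - g (act id l y)| ≤ 2 * ‖g‖ := by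
        have b1 := norm_le_pi_norm g (act id l x)
        have b2 := norm_le_pi_norm g (act id l y)
        rw [Real.norm_eq_abs] at b1 b2
        have := abs_sub (g (act id l x)) (g (act id l y))
        linarith
      exact h2.trans (le_mul_of_one_le_right (by positivity) h1)
    · have : act id l x = act id l y := by
        funext v
        simp only [act]
        rcases hv : l v with w | a
        · exact absurd ⟨w, mem_filter.2 ⟨mem_univ _, v, hv⟩⟩ hr
        · rfl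
      rw [this, sub_self, abs_zero]
      exact mul_nonneg (by positivity) (sum_nonneg n0)
  refine (sum_le_sum fun l _ => a1 l).trans ?_
  rw [← mul_sum, sum_comm]
  refine mul_le_mul_of_nonneg_left ?_ (by positivity)
  refine (sum_le_sum fun u _ => law_rng H hT u).trans ?_
  simp

lemma conv (H : Good G θ D) {μ : (V → α) → ℝ} (M : Stat G θ μ) (g : (V → α) → ℝ) (x : V → α) :
    Tendsto (fun T => Pt G θ id T g x) atTop (𝓝 (∑ y, μ y * g y)) := by
  have h1 : Tendsto (fun T : ℝ => 2 * ‖g‖ * (Fintype.card V * (D * Real.exp (-(θ * T))))) atTop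
      (𝓝 (2 * ‖g‖ * (Fintype.card V * (D * 0)))) := by
    refine (Tendsto.const_mul _ (Tendsto.const_mul _ (Tendsto.const_mul _ ?_)))
    exact Real.tendsto_exp_neg_atTop_nhds_zero.comp (tendsto_id.const_mul_atTop H.t0)
  simp only [mul_zero] at h1
  rw [tendsto_iff_dist_tendsto_zero]
  refine squeeze_zero' (Eventually.of_forall fun _ => dist_nonneg) ?_ h1
  filter_upwards [eventually_ge_atTop 0] with T hT
  rw [Real.dist_eq, ← stat_Pt M T g]
  have e : Pt G θ id T g x - ∑ y, μ y * Pt G θ id T g y =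
      ∑ y, μ y * (Pt G θ id T g x - Pt G θ id T g y) := by
    simp only [mul_sub, sum_sub_distrib, ← sum_mul, M.m1, one_mul]
  rw [e]
  refine (abs_sum_le_sum_abs _ _).trans ?_
  have : ∀ y, |μ y * (Pt G θ id T g x - Pt G θ id T g y)| ≤
      μ y * (2 * ‖g‖ * (Fintype.card V * (D * Real.exp (-(θ * T))))) := fun y => by
    rw [abs_mul, abs_of_nonneg (M.m0 y)]
    exact mul_le_mul_of_nonneg_left (osc H hT g x y) (M.m0 y)
  refine (sum_le_sum fun y _ => this y).trans ?_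
  rw [← sum_mul, M.m1, one_mul]

lemma Cv_nonneg (h0 : 0 < θ) (hD : 0 ≤ D) : 0 ≤ Cv θ D := by unfold Cv; positivity

lemma key (H : Good G θ D) (hD : 0 ≤ D) {μ : (V → α) → ℝ} (M : Stat G θ μ) {t : ℝ} (ht : 0 ≤ t)
    (x : V → α) {ι : Type} [Fintype ι] (π : ι → ℝ) (hπ : ∀ i, 0 ≤ π i) (R : ι → Finset V) {δ : ℝ}
    (hδ0 : 0 ≤ δ) (hδ : ∀ u, ∑ i, π i * (if u ∈ R i then 1 else 0) ≤ δ) (g : ι → (V → α) → ℝ)
    (hg : ∀ i y y', (∀ u ∈ R i, y u = y' u) → g i y = g i y') {m : ℝ}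
    (hm : ∀ i y, g i y ^ 2 ≤ m) :
    (1 - tv (nu G θ t x) μ) * (Pt G θ id t (fun y => ∑ i, π i * g i y) x -
      ∑ y, μ y * ∑ i, π i * g i y) ≤ 2 * Real.sqrt (δ * Cv θ D * ((∑ i, π i) * m)) := by
  have vb : ∀ T, 0 ≤ T → Pt G θ id T (fun y => (∑ i, π i * g i y) ^ 2) x -
      Pt G θ id T (fun y => ∑ i, π i * g i y) x ^ 2 ≤ δ * Cv θ D * ((∑ i, π i) * m) := by
    intro T hT
    refine (var_cont H id hT x π hπ R hδ g hg).trans ?_
    refine mul_le_mul_of_nonneg_left ?_ (mul_nonneg hδ0 (Cv_nonneg H.t0 hD))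
    rw [sum_mul]
    refine sum_le_sum fun i _ => mul_le_mul_of_nonneg_left ?_ (hπ i)
    have := Pt_mono H (id : α → α) hT (f := fun y => g i y ^ 2) (g := fun _ => m) (hm i) x
    rw [Pt_const H] at this
    nlinarith [sq_nonneg (Pt G θ id T (g i) x)]
  have vμ : ∑ y, μ y * (∑ i, π i * g i y) ^ 2 - (∑ y, μ y * ∑ i, π i * g i y) ^ 2 ≤
      δ * Cv θ D * ((∑ i, π i) * m) := by
    refine le_of_tendsto ((conv H M (fun y => (∑ i, π i * g i y) ^ 2) x).sub
      ((conv H M (fun y => ∑ i, π i * g i y) x).pow 2)) ?_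
    filter_upwards [eventually_ge_atTop 0] with T hT using vb T hT
  have := overlap (h := fun y => ∑ i, π i * g i y) (nu_nonneg H ht x) M.m0 (nu_sum H t x) M.m1
    (by rw [nu_mul, nu_mul]; exact vb t ht) vμ
  rwa [nu_mul] at this

theorem window (H : Good G θ D) (hD : 0 ≤ D) {μ : (V → α) → ℝ} (M : Stat G θ μ) {t s : ℝ}
    (ht : 0 ≤ t) (hs : 0 ≤ s) (x : V → α) :
    (1 - tv (nu G θ t x) μ) * tv (nu G θ (t + s) x) μ ≤
      2 * Real.sqrt (D * Real.exp (-(θ * s)) * Cv θ D) := by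
  set g : (V → α) → ℝ := fun y => if μ y ≤ nu G θ (t + s) x y then 1 else 0 with hg
  have k := key H hD M ht x (law G θ s) (law_nonneg H hs) rng (by positivity) (law_rng H hs)
    (fun l y => g (act id l y))
    (fun l y y' h => by
      congr 1
      funext v
      simp only [act]
      rcases hv : l v with w | a
      · exact h w (mem_filter.2 ⟨mem_univ _, v, hv⟩)
      · rfl) (m := 1) (fun l y => by simp only [hg]; split_ifs <;> norm_num)
  have e : (fun y => ∑ l, law G θ s l * g (act id l y)) = Pt G θ id s g := by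
    funext y; rw [Pt_law]
  simp only [← Pt_law] at k
  rw [law_sum H, mul_one, mul_one, stat_Pt M, ← Pt_add] at k
  rw [tv_eq (nu_sum H (t + s) x) M.m1, nu_mul]
  exact k

lemma tv_tendsto (H : Good G θ D) {μ : (V → α) → ℝ} (M : Stat G θ μ) (x : V → α) :
    Tendsto (fun T => tv (nu G θ T x) μ) atTop (𝓝 0) := by
  have h1 : ∀ y, Tendsto (fun T => |nu G θ T x y - μ y|) atTop (𝓝 0) := by
    intro y
    have := conv H M (fun z => if z = y then 1 else 0) x
    simp only [mul_ite, mul_one, mul_zero, sum_ite_eq', mem_univ, if_true] at this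
    have h2 := (this.sub_const (μ y)).abs
    simpa [nu] using h2
  have := (tendsto_finsetSum univ fun y _ => h1 y).div_const 2
  simpa [tv] using this

end H380NV
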